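import Pool.Agent.Work.MP_0403fc_an.Defs

namespace Pool.Agent.Work.MP_0403fc_an

open Filter Topology

variable {𝕜 : Type} [RCLike 𝕜] {p : ENNReal}

theorem one_le_toReal [h1 : Fact (1 ≤ p)] (hp : p ≠ ⊤) : 1 ≤ p.toReal := by
  rw [← ENNReal.toReal_one]
  exact ENNReal.toReal_mono hp h1.out

theorem toReal_pos' [Fact (1 ≤ p)] (hp : p ≠ ⊤) : 0 < p.toReal :=
  lt_of_lt_of_le one_pos (one_le_toReal hp)

/-- The `q`-th power sum of a sequence, as an extended nonnegative real. -/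
noncomputable def energy (q : ℝ) (f : ℕ → 𝕜) : ENNReal := ∑' i, ENNReal.ofReal (‖f i‖ ^ q)

theorem energy_eq [Fact (1 ≤ p)] (hp : p ≠ ⊤) (x : SeqSpace 𝕜 p) :
    energy p.toReal (x : ℕ → 𝕜) = ENNReal.ofReal (‖x‖ ^ p.toReal) := by
  have hq := toReal_pos' hp
  rw [energy, lp.norm_rpow_eq_tsum hq x, ENNReal.ofReal_tsum_of_nonneg]
  · intro i
    positivity
  · exact (lp.memℓp x).summable hq

theorem memℓp_of_energy [Fact (1 ≤ p)] (hp : p ≠ ⊤) {f : ℕ → 𝕜}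
    (h : energy p.toReal f ≠ ⊤) : Memℓp f p := by
  have hq := toReal_pos' hp
  rw [memℓp_gen_iff hq]
  have h1 := ENNReal.summable_toReal h
  refine h1.congr fun i => ?_
  rw [ENNReal.toReal_ofReal (by positivity)]

/-- The element of `ℓ^p` given by a function of finite energy. -/
noncomputable def mkSeq [Fact (1 ≤ p)] (hp : p ≠ ⊤) (f : ℕ → 𝕜)
    (h : energy p.toReal f ≠ ⊤) : SeqSpace 𝕜 p :=
  ⟨f, memℓp_of_energy hp h⟩

theorem mkSeq_apply [Fact (1 ≤ p)] (hp : p ≠ ⊤) (f : ℕ → 𝕜)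
    (h : energy p.toReal f ≠ ⊤) (i : ℕ) : mkSeq hp f h i = f i := rfl

theorem norm_le_of_energy [Fact (1 ≤ p)] (hp : p ≠ ⊤) (x : SeqSpace 𝕜 p) {C : ℝ} (hC : 0 ≤ C)
    (h : energy p.toReal (x : ℕ → 𝕜) ≤ ENNReal.ofReal (C ^ p.toReal)) : ‖x‖ ≤ C := by
  rw [energy_eq hp, ENNReal.ofReal_le_ofReal_iff (by positivity)] at h
  exact (Real.rpow_le_rpow_iff (norm_nonneg _) hC (toReal_pos' hp)).1 h

theorem energy_le_of_norm [Fact (1 ≤ p)] (hp : p ≠ ⊤) (x : SeqSpace 𝕜 p) {C : ℝ}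
    (h : ‖x‖ ≤ C) : energy p.toReal (x : ℕ → 𝕜) ≤ ENNReal.ofReal (C ^ p.toReal) := by
  rw [energy_eq hp]
  apply ENNReal.ofReal_le_ofReal
  exact Real.rpow_le_rpow (norm_nonneg _) h (toReal_pos' hp).le

/-- The products `w_1 ⋯ w_m`. -/
noncomputable def beta (w : ℕ → 𝕜) (m : ℕ) : 𝕜 := ∏ i ∈ Finset.Ioc 0 m, w i

theorem beta_zero (w : ℕ → 𝕜) : beta w 0 = 1 := by simp [beta]

theorem beta_succ (w : ℕ → 𝕜) (m : ℕ) : beta w (m + 1) = w (m + 1) * beta w m := by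
  rw [beta, beta, ← Finset.insert_Ioc_right_eq_Ioc_add_one (Nat.zero_le m),
    Finset.prod_insert (by simp)]

theorem beta_ne_zero {w : ℕ → 𝕜} (hw : ∀ n, w n ≠ 0) (m : ℕ) : beta w m ≠ 0 :=
  Finset.prod_ne_zero_iff.2 fun i _ => hw i

/-- `|w_1 ⋯ w_m|^q`. -/
noncomputable def bb (w : ℕ → 𝕜) (q : ℝ) (m : ℕ) : ℝ := ‖beta w m‖ ^ q

theorem bb_pos {w : ℕ → 𝕜} (hw : ∀ n, w n ≠ 0) (q : ℝ) (m : ℕ) : 0 < bb w q m :=
  Real.rpow_pos_of_pos (norm_pos_iff.2 (beta_ne_zero hw m)) q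

theorem bb_zero (w : ℕ → 𝕜) (q : ℝ) : bb w q 0 = 1 := by
  simp [bb, beta_zero]

theorem norm_beta (w : ℕ → 𝕜) (m : ℕ) : ‖beta w m‖ = ∏ i ∈ Finset.Ioc 0 m, ‖w i‖ := by
  rw [beta, norm_prod]

theorem blockWeight_eq {w : ℕ → 𝕜} (hw : ∀ n, w n ≠ 0) {n m : ℕ} (h : n ≤ m) :
    blockWeight w n m = ‖beta w m‖ / ‖beta w (m - n)‖ := by
  rw [blockWeight, if_pos h, norm_beta, norm_beta, eq_div_iff, mul_comm]
  · have h2 : Finset.Ioc 0 m = Finset.Ioc 0 (m - n) ∪ Finset.Ioc (m - n) m := by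
      rw [Finset.Ioc_union_Ioc_eq_Ioc (Nat.zero_le _) (Nat.sub_le _ _)]
    rw [h2, Finset.prod_union]
    rw [Finset.disjoint_left]
    intro a ha hb
    simp only [Finset.mem_Ioc] at ha hb
    omega
  · exact Finset.prod_ne_zero_iff.2 fun i _ => norm_ne_zero_iff.2 (hw i)

section shift

variable [Fact (1 ≤ p)] {w : ℕ → 𝕜} {T : SeqSpace 𝕜 p →L[𝕜] SeqSpace 𝕜 p}

theorem pow_apply_mul (hT : IsWeightedShift w (fun x => T x)) (n : ℕ) (x : SeqSpace 𝕜 p) (i : ℕ) :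
    beta w i * (T ^ n) x i = beta w (i + n) * x (i + n) := by
  induction n generalizing i with
  | zero => simp
  | succ n ih =>
    have h1 : (T ^ (n + 1)) x i = w (i + 1) * (T ^ n) x (i + 1) := by
      rw [pow_succ']
      exact hT ((T ^ n) x) i
    rw [h1]
    have h2 := ih (i + 1)
    rw [beta_succ] at h2
    rw [show i + (n + 1) = i + 1 + n by ring, ← h2]
    ring

theorem pow_apply (hw : ∀ n, w n ≠ 0) (hT : IsWeightedShift w (fun x => T x)) (n : ℕ)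
    (x : SeqSpace 𝕜 p) (i : ℕ) :
    (T ^ n) x i = beta w (i + n) * x (i + n) / beta w i := by
  rw [eq_div_iff (beta_ne_zero hw i), mul_comm]
  exact pow_apply_mul hT n x i

theorem norm_pow_apply_rpow (hw : ∀ n, w n ≠ 0) (hT : IsWeightedShift w (fun x => T x)) (n : ℕ)
    (x : SeqSpace 𝕜 p) (i : ℕ) (q : ℝ) :
    ‖(T ^ n) x i‖ ^ q = bb w q (i + n) / bb w q i * ‖x (i + n)‖ ^ q := by
  rw [pow_apply hw hT, norm_div, norm_mul, Real.div_rpow (by positivity) (by positivity),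
    Real.mul_rpow (by positivity) (by positivity), bb, bb]
  ring

theorem energy_pow (hw : ∀ n, w n ≠ 0) (hT : IsWeightedShift w (fun x => T x)) (n : ℕ)
    (x : SeqSpace 𝕜 p) (q : ℝ) :
    energy q ((T ^ n) x : ℕ → 𝕜) =
      ∑' i, ENNReal.ofReal (bb w q (i + n) / bb w q i * ‖x (i + n)‖ ^ q) := by
  rw [energy]
  exact tsum_congr fun i => by rw [norm_pow_apply_rpow hw hT]

theorem iterate_eq_pow (n : ℕ) (x : SeqSpace 𝕜 p) : (fun y => T y)^[n] x = (T ^ n) x := by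
  have h := FunLike.coe_pow_eq_iterate T n
  rw [h]

end shift

/-- The truncation of a sequence to the coordinates below `L`. -/
noncomputable def trunc [Fact (1 ≤ p)] (L : ℕ) (x : SeqSpace 𝕜 p) : SeqSpace 𝕜 p :=
  ∑ i ∈ Finset.range L, lp.single p i (x i)

theorem trunc_apply [Fact (1 ≤ p)] (L : ℕ) (x : SeqSpace 𝕜 p) (i : ℕ) :
    trunc L x i = if i < L then x i else 0 := by
  rw [trunc, lp.coeFn_sum, Finset.sum_apply]
  simp only [lp.single_apply]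
  simp [Pi.single_apply]

theorem trunc_tendsto [Fact (1 ≤ p)] (hp : p ≠ ⊤) (x : SeqSpace 𝕜 p) :
    Tendsto (fun L => trunc L x) atTop (𝓝 x) :=
  (lp.hasSum_single hp x).tendsto_sum_nat

end Pool.Agent.Work.MP_0403fc_an
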