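import Mathlib

/-!
Definitions used by the statement of the characterisation of weighted backward shifts on `ℓ^p`
with a frequently hypercyclic subspace.
-/

namespace Pool.Agent.Work.MP_0403fc_an

open Filter

/-- The lower density `liminf_N |A ∩ {1, …, N}| / N` of a set of natural numbers. -/
noncomputable def lowerDensity (A : Set ℕ) : ℝ :=
  liminf (fun N : ℕ => ((A ∩ Set.Icc 1 N).ncard : ℝ) / (N : ℝ)) atTop

/-- `x` is a frequently hypercyclic vector for the map `T`: for every nonempty open set `U`, the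
set of times `n ≥ 0` with `T^n x ∈ U` has positive lower density. -/
def IsFreqHypercyclicVector {X : Type*} [TopologicalSpace X] (T : X → X) (x : X) : Prop :=
  ∀ U : Set X, IsOpen U → U.Nonempty → 0 < lowerDensity {n : ℕ | T^[n] x ∈ U}

/-- `T` has a frequently hypercyclic subspace: an infinite-dimensional closed subspace all of
whose nonzero vectors are frequently hypercyclic for `T`. -/
def HasFreqHypercyclicSubspace {𝕜 X : Type*} [NormedField 𝕜] [NormedAddCommGroup X]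
    [NormedSpace 𝕜 X] (T : X →L[𝕜] X) : Prop :=
  ∃ M : Submodule 𝕜 X, IsClosed (M : Set X) ∧ ¬ FiniteDimensional 𝕜 M ∧
    ∀ x ∈ M, x ≠ 0 → IsFreqHypercyclicVector (fun y => T y) x

/-- The Banach space `ℓ^p` of `p`-summable sequences `(x_0, x_1, x_2, …)` of scalars. -/
abbrev SeqSpace (𝕜 : Type) [RCLike 𝕜] (p : ENNReal) : Type := lp (fun _ : ℕ => 𝕜) p

/-- `T` is the weighted backward shift with weights `w`, that is
`T (x_0, x_1, x_2, …) = (w_1 x_1, w_2 x_2, w_3 x_3, …)`. -/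
def IsWeightedShift {𝕜 : Type} [RCLike 𝕜] {p : ENNReal} (w : ℕ → 𝕜)
    (T : SeqSpace 𝕜 p → SeqSpace 𝕜 p) : Prop :=
  ∀ (x : SeqSpace 𝕜 p) (i : ℕ), T x i = w (i + 1) * x (i + 1)

/-- `|w_{m-n+1} w_{m-n+2} ⋯ w_m|` (a product of `n` factors) if `n ≤ m`, and `0` if `n > m`;
this is the norm of the image of the `m`-th unit vector under the `n`-th power of the weighted
backward shift with weights `w`. -/
noncomputable def blockWeight {𝕜 : Type} [RCLike 𝕜] (w : ℕ → 𝕜) (n m : ℕ) : ℝ :=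
  if n ≤ m then ∏ i ∈ Finset.Ioc (m - n) m, ‖w i‖ else 0

/-- Condition (a): the series with terms `1 / |w_1 w_2 ⋯ w_m|^q` converges. -/
def WeightSummable {𝕜 : Type} [RCLike 𝕜] (w : ℕ → 𝕜) (q : ℝ) : Prop :=
  Summable fun m : ℕ => 1 / (∏ i ∈ Finset.Ioc 0 m, ‖w i‖) ^ q

/-- Condition (b): there are a set `A` of positive lower density and a bound `K` such that
arbitrarily far out there is a finitely supported probability vector `ζ` with
`∑_{m ≥ n} ζ_m |w_{m-n+1} ⋯ w_m|^q ≤ K` for every `n ∈ A`. -/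
def FlatBlocks {𝕜 : Type} [RCLike 𝕜] (w : ℕ → 𝕜) (q : ℝ) : Prop :=
  ∃ A : Set ℕ, 0 < lowerDensity A ∧ ∃ K : ℝ, ∀ N : ℕ, ∃ (F : Finset ℕ) (ζ : ℕ → ℝ),
    (∀ m ∈ F, N < m) ∧ (∀ m ∈ F, 0 ≤ ζ m) ∧ ∑ m ∈ F, ζ m = 1 ∧
      ∀ n ∈ A, ∑ m ∈ F, ζ m * blockWeight w n m ^ q ≤ K

end Pool.Agent.Work.MP_0403fc_an
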