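import Pool.Agent.Work.MP_0403fc_an.Defs

namespace Pool.Agent.Work.MP_0403fc_an

open Filter

theorem ncard_inter_Icc_le (A : Set ℕ) (N : ℕ) : (A ∩ Set.Icc 1 N).ncard ≤ N := by
  calc (A ∩ Set.Icc 1 N).ncard ≤ (Set.Icc 1 N).ncard :=
        Set.ncard_le_ncard Set.inter_subset_right (Set.finite_Icc 1 N)
    _ = N := by
        rw [Set.ncard_eq_toFinset_card']
        simp

theorem ratio_nonneg (A : Set ℕ) (N : ℕ) : 0 ≤ ((A ∩ Set.Icc 1 N).ncard : ℝ) / (N : ℝ) := by
  positivity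

theorem ratio_le_one (A : Set ℕ) (N : ℕ) : ((A ∩ Set.Icc 1 N).ncard : ℝ) / (N : ℝ) ≤ 1 := by
  apply div_le_one_of_le₀ _ (by positivity)
  exact_mod_cast ncard_inter_Icc_le A N

theorem lowerDensity_pos_iff (A : Set ℕ) :
    0 < lowerDensity A ↔ ∃ c : ℝ, 0 < c ∧ ∃ N₀ : ℕ, ∀ N : ℕ, N₀ ≤ N →
      c * N ≤ ((A ∩ Set.Icc 1 N).ncard : ℝ) := by
  have hb1 : IsBoundedUnder (· ≥ ·) atTop
      (fun N : ℕ => ((A ∩ Set.Icc 1 N).ncard : ℝ) / (N : ℝ)) :=
    isBoundedUnder_of ⟨0, fun N => ratio_nonneg A N⟩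
  have hb2 : IsBoundedUnder (· ≤ ·) atTop
      (fun N : ℕ => ((A ∩ Set.Icc 1 N).ncard : ℝ) / (N : ℝ)) :=
    isBoundedUnder_of ⟨1, fun N => ratio_le_one A N⟩
  constructor
  · intro h
    unfold lowerDensity at h
    have h2 : lowerDensity A / 2 < lowerDensity A := by
      unfold lowerDensity
      linarith
    have h3 := eventually_lt_of_lt_liminf (u := fun N : ℕ =>
      ((A ∩ Set.Icc 1 N).ncard : ℝ) / (N : ℝ)) (f := atTop) (b := lowerDensity A / 2)
      (by unfold lowerDensity; linarith) hb1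
    obtain ⟨N₀, hN₀⟩ := eventually_atTop.1 h3
    refine ⟨lowerDensity A / 2, ?_, N₀ + 1, ?_⟩
    · unfold lowerDensity
      linarith
    · intro N hN
      have h4 := hN₀ N (by omega)
      have hNpos : (0 : ℝ) < N := by
        have : 0 < N := by omega
        exact_mod_cast this
      rw [lt_div_iff₀ hNpos] at h4
      exact h4.le
  · rintro ⟨c, hc, N₀, h⟩
    refine lt_of_lt_of_le hc ?_
    unfold lowerDensity
    apply le_liminf_of_le hb2.isCoboundedUnder_ge
    filter_upwards [eventually_ge_atTop (N₀ + 1)] with N hN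
    have hNpos : (0 : ℝ) < N := by
      have : 0 < N := by omega
      exact_mod_cast this
    rw [le_div_iff₀ hNpos]
    exact h N (by omega)

theorem lowerDensity_pos_mono {A B : Set ℕ} (hAB : A ⊆ B) (h : 0 < lowerDensity A) :
    0 < lowerDensity B := by
  rw [lowerDensity_pos_iff] at h ⊢
  obtain ⟨c, hc, N₀, h⟩ := h
  refine ⟨c, hc, N₀, fun N hN => (h N hN).trans ?_⟩
  have : (A ∩ Set.Icc 1 N).ncard ≤ (B ∩ Set.Icc 1 N).ncard :=
    Set.ncard_le_ncard (Set.inter_subset_inter_left _ hAB) ((Set.finite_Icc 1 N).inter_of_right _)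
  exact_mod_cast this

/-- A set containing a strictly increasing sequence of at most linear growth has positive lower
density. -/
theorem lowerDensity_pos_of_linear {A : Set ℕ} (f : ℕ → ℕ) (hf : StrictMono f)
    (hA : ∀ l, f l ∈ A) (C : ℕ) (hC : ∀ l, f l ≤ C * (l + 1)) : 0 < lowerDensity A := by
  rw [lowerDensity_pos_iff]
  have hCpos : 0 < C := by
    rcases Nat.eq_zero_or_pos C with h | h
    · exfalso
      have h1 := hC 1
      have h2 := hf (show (0 : ℕ) < 1 by norm_num)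
      rw [h] at h1
      omega
    · exact h
  refine ⟨1 / (2 * C), by positivity, 4 * C, fun N hN => ?_⟩
  have h1 : (Set.Ico 1 (N / C)).ncard ≤ (A ∩ Set.Icc 1 N).ncard := by
    apply Set.ncard_le_ncard_of_injOn f
    · intro l hl
      simp only [Set.mem_Ico] at hl
      refine ⟨hA l, ?_, ?_⟩
      · exact le_trans hl.1 (hf.le_apply)
      · refine (hC l).trans ?_
        calc C * (l + 1) ≤ C * (N / C) := Nat.mul_le_mul_left C hl.2
          _ ≤ N := Nat.mul_div_le N C
    · exact hf.injective.injOn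
  have h2 : (Set.Ico 1 (N / C)).ncard = N / C - 1 := by
    rw [Set.ncard_eq_toFinset_card']
    simp
  rw [h2] at h1
  have h3 : N < C * (N / C + 1) := by
    exact Nat.lt_mul_div_succ N hCpos
  have h4 : 4 ≤ N / C := by
    rw [Nat.le_div_iff_mul_le hCpos]
    omega
  have h5 : (N : ℝ) < C * ((N / C : ℕ) + 1) := by exact_mod_cast h3
  have h6 : ((N / C : ℕ) : ℝ) - 1 ≤ ((A ∩ Set.Icc 1 N).ncard : ℝ) := by
    have : N / C ≤ (A ∩ Set.Icc 1 N).ncard + 1 := by omega
    have : ((N / C : ℕ) : ℝ) ≤ ((A ∩ Set.Icc 1 N).ncard : ℝ) + 1 := by exact_mod_cast this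
    linarith
  have h7 : (4 : ℝ) ≤ ((N / C : ℕ) : ℝ) := by exact_mod_cast h4
  have hC' : (0 : ℝ) < C := by exact_mod_cast hCpos
  refine le_trans ?_ h6
  rw [div_mul_eq_mul_div, one_mul, div_le_iff₀ (by positivity)]
  nlinarith

/-- A set of positive lower density contains a strictly increasing sequence of at most linear
growth. -/
theorem exists_linear_of_lowerDensity_pos {A : Set ℕ} (h : 0 < lowerDensity A) :
    ∃ a : ℕ → ℕ, StrictMono a ∧ (∀ l, a l ∈ A) ∧ ∃ C : ℕ, ∀ l, a l ≤ C * (l + 1) := by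
  classical
  rw [lowerDensity_pos_iff] at h
  obtain ⟨c, hc, N₀, h⟩ := h
  have hinf : A.Infinite := by
    intro hfin
    obtain ⟨n, hn⟩ := exists_nat_gt ((A.ncard : ℝ) / c)
    have h1 := h (max n N₀) (le_max_right _ _)
    have h2 : (A ∩ Set.Icc 1 (max n N₀)).ncard ≤ A.ncard :=
      Set.ncard_le_ncard Set.inter_subset_left hfin
    have h3 : ((A ∩ Set.Icc 1 (max n N₀)).ncard : ℝ) ≤ A.ncard := by exact_mod_cast h2
    rw [div_lt_iff₀ hc] at hn
    have h4 : (n : ℝ) ≤ ((max n N₀ : ℕ) : ℝ) := by exact_mod_cast le_max_left _ _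
    nlinarith
  refine ⟨Nat.nth (fun n => n ∈ A), Nat.nth_strictMono hinf,
    fun l => Nat.nth_mem_of_infinite hinf l, max N₀ (⌈1 / c⌉₊), fun l => ?_⟩
  set a := Nat.nth (fun n => n ∈ A) l with ha
  rcases lt_or_ge a N₀ with hlt | hge
  · calc a ≤ N₀ * 1 := by omega
      _ ≤ max N₀ (⌈1 / c⌉₊) * (l + 1) := Nat.mul_le_mul (le_max_left _ _) (by omega)
  · have h1 := h a hge
    have h2 : (A ∩ Set.Icc 1 a).ncard ≤ l + 1 := by
      have h3 : Nat.count (fun n => n ∈ A) a = l := Nat.count_nth_of_infinite hinf l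
      rw [Nat.count_eq_card_filter_range] at h3
      calc (A ∩ Set.Icc 1 a).ncard
          ≤ (insert a ((Finset.range a).filter (fun n => n ∈ A)) : Finset ℕ).card := by
            rw [← Set.ncard_coe_finset]
            apply Set.ncard_le_ncard _ (Finset.finite_toSet _)
            intro n hn
            simp only [Set.mem_inter_iff, Set.mem_Icc] at hn
            simp only [Finset.coe_insert, Finset.coe_filter, Finset.mem_range]
            rcases eq_or_lt_of_le hn.2.2 with h' | h'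
            · left; exact h'
            · right; exact ⟨h', hn.1⟩
        _ ≤ ((Finset.range a).filter (fun n => n ∈ A)).card + 1 := Finset.card_insert_le _ _
        _ = l + 1 := by rw [h3]
    have h4 : ((A ∩ Set.Icc 1 a).ncard : ℝ) ≤ l + 1 := by exact_mod_cast h2
    have h5 : (a : ℝ) ≤ (1 / c) * (l + 1) := by
      rw [div_mul_eq_mul_div, one_mul, le_div_iff₀ hc]
      linarith
    have h6 : (1 / c : ℝ) ≤ (⌈1 / c⌉₊ : ℝ) := Nat.le_ceil _
    have h7 : (a : ℝ) ≤ ((max N₀ (⌈1 / c⌉₊) * (l + 1) : ℕ) : ℝ) := by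
      push_cast
      calc (a : ℝ) ≤ (1 / c) * (l + 1) := h5
        _ ≤ (max (N₀ : ℝ) (⌈1 / c⌉₊ : ℝ)) * (l + 1) := by
            apply mul_le_mul_of_nonneg_right (h6.trans (le_max_right _ _)) (by positivity)
    exact_mod_cast h7

end Pool.Agent.Work.MP_0403fc_an
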