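import Pool.Agent.Work.MP_0403fc_an.Density

namespace Pool.Agent.Work.MP_0403fc_an

open Filter Topology

/-- The level of an event: the dyadic valuation of its index. -/
def lev (u : ℕ) : ℕ := padicValNat 2 u

theorem lev_zero : lev 0 = 0 := by simp [lev]

/-- The index of the `u`-th event in an enumeration. -/
def idx (u : ℕ) : ℕ := ∑ v ∈ Finset.range u, (2 * lev v + 1) + lev u

theorem idx_sep {u v : ℕ} (h : u < v) : idx u + lev u + lev v + 1 ≤ idx v := by
  have h1 : ∑ x ∈ Finset.range (u + 1), (2 * lev x + 1) ≤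
      ∑ x ∈ Finset.range v, (2 * lev x + 1) :=
    Finset.sum_le_sum_of_subset (Finset.range_mono h)
  rw [Finset.sum_range_succ] at h1
  unfold idx
  omega

theorem lev_le_idx (u : ℕ) : lev u ≤ idx u := by
  unfold idx
  omega

theorem sum_lev_le (u : ℕ) : ∑ v ∈ Finset.range (u + 1), lev v ≤ u := by
  have h : ∀ u : ℕ, ∑ v ∈ Finset.range (u + 1), lev v = padicValNat 2 u.factorial := by
    intro u
    induction u with
    | zero => simp [lev]
    | succ n ih =>
      rw [Finset.sum_range_succ, ih, Nat.factorial_succ, padicValNat.mul (by omega)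
        (Nat.factorial_ne_zero n), add_comm]
      rfl
  rw [h u]
  have h2 := sub_one_mul_padicValNat_factorial (p := 2) u
  omega

theorem idx_le (u : ℕ) : idx u ≤ 3 * u + 1 := by
  have h1 := sum_lev_le u
  have h2 : ∑ v ∈ Finset.range (u + 1), (2 * lev v + 1) =
      2 * (∑ v ∈ Finset.range (u + 1), lev v) + (u + 1) := by
    rw [Finset.sum_add_distrib, Finset.mul_sum]
    simp
  have h3 : idx u ≤ ∑ v ∈ Finset.range (u + 1), (2 * lev v + 1) := by
    rw [Finset.sum_range_succ]
    unfold idx
    omega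
  omega

theorem lev_odd (ρ l : ℕ) : lev (2 ^ ρ * (2 * l + 1)) = ρ := by
  unfold lev
  rw [padicValNat.mul (by positivity) (by omega), padicValNat.prime_pow]
  have : padicValNat 2 (2 * l + 1) = 0 := by
    apply padicValNat.eq_zero_of_not_dvd
    omega
  omega

/-- From a set of positive lower density, extract a well-separated sequence of events. -/
theorem exists_events {A : Set ℕ} (hA : 0 < lowerDensity A) :
    ∃ m : ℕ → ℕ, StrictMono m ∧ (∀ u, m u ∈ A) ∧ (∀ u, lev u ≤ m u) ∧
      (∀ u v, u < v → m u + lev u + lev v + 1 ≤ m v) ∧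
      ∀ ρ n₀, 0 < lowerDensity {n | n₀ ≤ n ∧ ∃ u, lev u = ρ ∧ m u = n} := by
  obtain ⟨a, hmono, haA, C, hC⟩ := exists_linear_of_lowerDensity_pos hA
  have ha : ∀ x y, x ≤ y → a x + (y - x) ≤ a y := by
    intro x y hxy
    have h1 := hmono.add_le_nat (y - x) x
    rw [Nat.sub_add_cancel hxy] at h1
    omega
  have hsep : ∀ u v, u < v → a (idx u) + lev u + lev v + 1 ≤ a (idx v) := by
    intro u v huv
    have h1 := idx_sep huv
    have h2 := ha (idx u) (idx v) (by omega)
    omega
  have hm : StrictMono (fun u => a (idx u)) := by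
    intro u v huv
    have := hsep u v huv
    show a (idx u) < a (idx v)
    omega
  refine ⟨fun u => a (idx u), hm, fun u => haA _, fun u => (lev_le_idx u).trans hmono.le_apply,
    hsep, fun ρ n₀ => ?_⟩
  apply lowerDensity_pos_of_linear
    (f := fun l => a (idx (2 ^ ρ * (2 * (l + n₀) + 1)))) (C := C * (2 ^ ρ * (6 * n₀ + 8)))
  · intro l l' hl
    apply hm
    apply Nat.mul_lt_mul_of_pos_left _ (by positivity)
    omega
  · intro l
    refine ⟨?_, _, lev_odd ρ (l + n₀), rfl⟩
    calc n₀ ≤ 2 ^ ρ * (2 * (l + n₀) + 1) := by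
          calc n₀ ≤ 1 * (2 * (l + n₀) + 1) := by omega
            _ ≤ 2 ^ ρ * (2 * (l + n₀) + 1) := Nat.mul_le_mul_right _ Nat.one_le_two_pow
      _ ≤ _ := hm.le_apply
  · intro l
    calc a (idx (2 ^ ρ * (2 * (l + n₀) + 1)))
        ≤ C * (idx (2 ^ ρ * (2 * (l + n₀) + 1)) + 1) := hC _
      _ ≤ C * (3 * (2 ^ ρ * (2 * (l + n₀) + 1)) + 1 + 1) := by
          apply Nat.mul_le_mul_left
          have := idx_le (2 ^ ρ * (2 * (l + n₀) + 1))
          omega
      _ ≤ C * ((2 ^ ρ * (6 * n₀ + 8)) * (l + 1)) := by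
          apply Nat.mul_le_mul_left
          have h1 : 1 ≤ 2 ^ ρ := Nat.one_le_two_pow
          calc 3 * (2 ^ ρ * (2 * (l + n₀) + 1)) + 1 + 1
              ≤ 3 * (2 ^ ρ * (2 * (l + n₀) + 1)) + 2 * 2 ^ ρ := by omega
            _ = 2 ^ ρ * (6 * l + 6 * n₀ + 5) := by ring
            _ ≤ 2 ^ ρ * ((6 * n₀ + 8) * (l + 1)) := by
                apply Nat.mul_le_mul_left
                nlinarith [Nat.zero_le (n₀ * l)]
            _ = (2 ^ ρ * (6 * n₀ + 8)) * (l + 1) := by ring
      _ = _ := by ring

/-- Summation over events. -/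
theorem event_sum_le (m : ℕ → ℕ) (hm : StrictMono m) (S : Set ℕ) (n L : ℕ)
    (hS : ∀ u ∈ S, n + L + lev u ≤ m u) (B : ℕ → ENNReal) (D : ℕ → ℕ → ENNReal) (f : ℕ → ENNReal)
    (hf : ∀ i, f i = 0 ∨ ∃ u ∈ S, ∃ t, m u + t = n + i ∧ f i ≤ D (lev u) t) :
    ∑' i, B i * f i ≤ ∑' ρ, (∑' t, D ρ t) * ∑' k, B (k + (L + ρ)) := by
  classical
  have h1 : ∀ i, B i * f i ≤
      ∑' u, ∑' t, (if (u ∈ S ∧ m u + t = n + i) then D (lev u) t * B i else 0) := by
    intro i
    rcases hf i with h | ⟨u, hu, t, ht, hle⟩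
    · rw [h, mul_zero]
      exact zero_le
    · calc B i * f i ≤ D (lev u) t * B i := by
            rw [mul_comm]
            gcongr
        _ = (if (u ∈ S ∧ m u + t = n + i) then D (lev u) t * B i else 0) := by
            rw [if_pos ⟨hu, ht⟩]
        _ ≤ ∑' t, (if (u ∈ S ∧ m u + t = n + i) then D (lev u) t * B i else 0) :=
            ENNReal.le_tsum t
        _ ≤ _ := ENNReal.le_tsum (f := fun u =>
            ∑' t, (if (u ∈ S ∧ m u + t = n + i) then D (lev u) t * B i else 0)) u
  calc ∑' i, B i * f i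
      ≤ ∑' i, ∑' u, ∑' t, (if (u ∈ S ∧ m u + t = n + i) then D (lev u) t * B i else 0) :=
        ENNReal.tsum_le_tsum h1
    _ = ∑' u, ∑' t, ∑' i, (if (u ∈ S ∧ m u + t = n + i) then D (lev u) t * B i else 0) := by
        rw [ENNReal.tsum_comm]
        refine tsum_congr fun u => ?_
        rw [ENNReal.tsum_comm]
    _ = ∑' u, ∑' t, (if u ∈ S then D (lev u) t * B (m u + t - n) else 0) := by
        refine tsum_congr fun u => tsum_congr fun t => ?_
        by_cases hu : u ∈ S
        · have h2 := hS u hu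
          rw [tsum_eq_single (m u + t - n)]
          · rw [if_pos ⟨hu, by omega⟩, if_pos hu]
          · intro i hi
            rw [if_neg]
            rintro ⟨-, h3⟩
            omega
        · simp [hu]
    _ = ∑' u, ∑' ρ, ∑' t, (if (u ∈ S ∧ lev u = ρ) then D ρ t * B (m u + t - n) else 0) := by
        refine tsum_congr fun u => ?_
        symm
        rw [tsum_eq_single (lev u)]
        · simp
        · intro ρ hρ
          simp [Ne.symm hρ]
    _ = ∑' ρ, ∑' t, ∑' u, (if (u ∈ S ∧ lev u = ρ) then D ρ t * B (m u + t - n) else 0) := by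
        rw [ENNReal.tsum_comm]
        refine tsum_congr fun ρ => ?_
        rw [ENNReal.tsum_comm]
    _ ≤ ∑' ρ, ∑' t, D ρ t * ∑' k, B (k + (L + ρ)) := by
        refine ENNReal.tsum_le_tsum fun ρ => ENNReal.tsum_le_tsum fun t => ?_
        have h2 : ∀ u, (if (u ∈ S ∧ lev u = ρ) then D ρ t * B (m u + t - n) else 0) =
            D ρ t * (Set.indicator {u | u ∈ S ∧ lev u = ρ} (fun u => B (m u + t - n)) u) := by
          intro u
          by_cases h : u ∈ S ∧ lev u = ρ
          · rw [if_pos h, Set.indicator_of_mem]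
            exact h
          · rw [if_neg h, Set.indicator_of_notMem, mul_zero]
            exact h
        simp_rw [h2]
        rw [ENNReal.tsum_mul_left]
        refine mul_le_mul' le_rfl ?_
        rw [← tsum_subtype]
        have hinj : Function.Injective
            (fun u : {u | u ∈ S ∧ lev u = ρ} => m u.1 + t - n - (L + ρ)) := by
          intro u v huv
          have hu := hS u.1 u.2.1
          have hv := hS v.1 v.2.1
          have hu2 : lev u.1 = ρ := u.2.2
          have hv2 : lev v.1 = ρ := v.2.2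
          simp only at huv
          have h3 : m u.1 = m v.1 := by omega
          exact Subtype.ext (hm.injective h3)
        refine le_trans (le_of_eq ?_) (ENNReal.tsum_comp_le_tsum_of_injective hinj
          (fun k => B (k + (L + ρ))))
        refine tsum_congr fun u => ?_
        have hu := hS u.1 u.2.1
        have hu2 : lev u.1 = ρ := u.2.2
        congr 1
        omega
    _ = ∑' ρ, (∑' t, D ρ t) * ∑' k, B (k + (L + ρ)) := by
        refine tsum_congr fun ρ => ?_
        rw [ENNReal.tsum_mul_right]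

end Pool.Agent.Work.MP_0403fc_an
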