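import Pool.Agent.Work.MP_0403fc_an.NecA

namespace Pool.Agent.Work.MP_0403fc_an

open Filter Topology

variable {𝕜 : Type} [RCLike 𝕜] {p : ENNReal}

theorem bb_growth {w : ℕ → 𝕜} (hw : ∀ n, w n ≠ 0) {C : ℝ} (hC : ∀ n, ‖w n‖ ≤ C) {q : ℝ}
    (hq : 0 < q) (i s : ℕ) :
    1 / bb w q i ≤ (max C 1 ^ q) ^ s * (1 / bb w q (i + s)) := by
  induction s with
  | zero => simp
  | succ s ih =>
    refine ih.trans ?_
    rw [pow_succ, mul_assoc]
    have h1 := bb_pos hw q (i + s)
    have h2 := bb_pos hw q (i + (s + 1))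
    have h3 : (0 : ℝ) ≤ max C 1 := le_trans zero_le_one (le_max_right _ _)
    apply mul_le_mul_of_nonneg_left _ (by positivity)
    have h4 : bb w q (i + (s + 1)) = ‖w (i + s + 1)‖ ^ q * bb w q (i + s) := by
      rw [bb, ← add_assoc, beta_succ, norm_mul, Real.mul_rpow (norm_nonneg _) (norm_nonneg _)]
      rfl
    rw [mul_one_div, div_le_div_iff₀ h1 h2, one_mul, h4]
    apply mul_le_mul_of_nonneg_right _ h1.le
    exact Real.rpow_le_rpow (norm_nonneg _) ((hC _).trans (le_max_left _ _)) hq.le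

theorem necessity_a [Fact (1 ≤ p)] (hp : p ≠ ⊤) {w : ℕ → 𝕜} (hw : ∀ n, w n ≠ 0)
    {C : ℝ} (hC : ∀ n, ‖w n‖ ≤ C)
    {T : SeqSpace 𝕜 p →L[𝕜] SeqSpace 𝕜 p} (hT : IsWeightedShift w (fun x => T x))
    (x : SeqSpace 𝕜 p) (hx : IsFreqHypercyclicVector (fun y => T y) x) :
    WeightSummable w p.toReal := by
  classical
  have hq := toReal_pos' hp
  let e0 : SeqSpace 𝕜 p := lp.single p 0 (1 : 𝕜)
  have he0 : ∀ i, e0 i = if i = 0 then 1 else 0 := by
    intro i
    simp only [e0, lp.single_apply]
    rw [Pi.single_apply]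
  let E : Set ℕ := {n | (T ^ n) x ∈ Metric.ball e0 (1 / 2)}
  have hE : 0 < lowerDensity E := by
    have h1 := hx (Metric.ball e0 (1 / 2)) Metric.isOpen_ball ⟨e0, by simp⟩
    have h2 : {n : ℕ | (fun y => T y)^[n] x ∈ Metric.ball e0 (1 / 2)} = E := by
      ext n
      rw [Set.mem_ofPred_eq, iterate_eq_pow]
      rfl
    rwa [h2] at h1
  have hEn : ∀ n ∈ E, ‖(T ^ n) x - e0‖ < 1 / 2 := by
    intro n hn
    have h1 : (T ^ n) x ∈ Metric.ball e0 (1 / 2) := hn
    rwa [Metric.mem_ball, dist_eq_norm] at h1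
  have hlow : ∀ n ∈ E, 1 / 2 ≤ ‖beta w n * x n‖ := by
    intro n hn
    have h1 := hEn n hn
    have h2 : ‖((T ^ n) x - e0 : SeqSpace 𝕜 p) 0‖ ≤ ‖(T ^ n) x - e0‖ :=
      lp.norm_apply_le_norm (by
        intro h0
        rw [h0] at hq
        simp at hq) _ _
    have h3 : ((T ^ n) x - e0 : SeqSpace 𝕜 p) 0 = beta w n * x n - 1 := by
      rw [lp.coeFn_sub, Pi.sub_apply, he0, if_pos rfl, pow_apply hw hT, beta_zero, div_one,
        zero_add]
    rw [h3] at h2
    have h4 : (1 : ℝ) ≤ ‖beta w n * x n‖ + ‖beta w n * x n - 1‖ := by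
      calc (1 : ℝ) = ‖(1 : 𝕜)‖ := norm_one.symm
        _ = ‖beta w n * x n - (beta w n * x n - 1)‖ := by rw [sub_sub_cancel]
        _ ≤ _ := norm_sub_le _ _
    linarith
  have hsum1 : ∀ n ∈ E, ∀ s : Finset ℕ, (∀ i ∈ s, n + (i + 1) ∈ E) →
      ∑ i ∈ s, 1 / bb w p.toReal (i + 1) ≤ 1 := by
    intro n hn s hs
    have h1 := lp.sum_rpow_le_norm_rpow hq ((T ^ n) x - e0) (s.map ⟨fun i => i + 1,
      add_left_injective 1⟩)
    rw [Finset.sum_map] at h1
    simp only [Function.Embedding.coeFn_mk] at h1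
    have h2 : ∀ i ∈ s, (1 / 2 : ℝ) ^ p.toReal * (1 / bb w p.toReal (i + 1)) ≤
        ‖((T ^ n) x - e0 : SeqSpace 𝕜 p) (i + 1)‖ ^ p.toReal := by
      intro i hi
      have h3 : ((T ^ n) x - e0 : SeqSpace 𝕜 p) (i + 1) =
          beta w (n + (i + 1)) * x (n + (i + 1)) / beta w (i + 1) := by
        rw [lp.coeFn_sub, Pi.sub_apply, he0, if_neg (by omega), sub_zero, pow_apply hw hT,
          add_comm n]
      rw [h3, norm_div, Real.div_rpow (norm_nonneg _) (norm_nonneg _), mul_one_div]
      change _ / _ ≤ _ / bb w p.toReal (i + 1)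
      have h4 := bb_pos hw p.toReal (i + 1)
      have h5 := hlow _ (hs i hi)
      gcongr
    have h6 : ‖(T ^ n) x - e0‖ ^ p.toReal ≤ (1 / 2 : ℝ) ^ p.toReal :=
      Real.rpow_le_rpow (norm_nonneg _) (hEn n hn).le hq.le
    have h7 := (Finset.sum_le_sum h2).trans (h1.trans h6)
    rw [← Finset.mul_sum] at h7
    have h8 : (0 : ℝ) < (1 / 2 : ℝ) ^ p.toReal := by positivity
    exact le_of_mul_le_mul_left (by linarith) h8
  obtain ⟨ψ, R, hψ, hR0, hRlim, ρ, hρ, F, hFne, hF⟩ := exists_corr hE
  have hsum2 : ∀ N I : ℕ, ∑ i ∈ Finset.range I, corr E (i + 1) N * (1 / bb w p.toReal (i + 1)) ≤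
      1 := by
    intro N I
    rcases Nat.eq_zero_or_pos N with hN | hN
    · subst hN
      simp [corr]
    have hNpos : (0 : ℝ) < N := by exact_mod_cast hN
    have h1 : ∑ i ∈ Finset.range I, corr E (i + 1) N * (1 / bb w p.toReal (i + 1)) =
        (∑ n ∈ Finset.range N, chi E n * ∑ i ∈ Finset.range I,
          chi E (n + (i + 1)) * (1 / bb w p.toReal (i + 1))) / N := by
      simp_rw [Finset.mul_sum]
      rw [Finset.sum_comm, Finset.sum_div]
      refine Finset.sum_congr rfl fun i _ => ?_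
      rw [corr, div_mul_eq_mul_div, Finset.sum_mul]
      congr 1
      exact Finset.sum_congr rfl fun n _ => by ring
    rw [h1, div_le_one hNpos]
    calc ∑ n ∈ Finset.range N, chi E n * ∑ i ∈ Finset.range I,
          chi E (n + (i + 1)) * (1 / bb w p.toReal (i + 1))
        ≤ ∑ n ∈ Finset.range N, (1 : ℝ) := by
          apply Finset.sum_le_sum
          intro n _
          by_cases hn : n ∈ E
          · have h2 : chi E n = 1 := by
              unfold chi
              rw [Set.indicator_of_mem hn]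
            rw [h2, one_mul]
            have h3 := hsum1 n hn ((Finset.range I).filter (fun i => n + (i + 1) ∈ E))
              (fun i hi => (Finset.mem_filter.1 hi).2)
            rw [Finset.sum_filter] at h3
            refine le_trans (le_of_eq ?_) h3
            refine Finset.sum_congr rfl fun i _ => ?_
            unfold chi
            rw [Set.indicator_apply]
            split_ifs <;> simp
          · have h2 : chi E n = 0 := by
              unfold chi
              rw [Set.indicator_of_notMem hn]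
            rw [h2, zero_mul]
            exact zero_le_one
      _ = N := by simp
  have hsum3 : ∀ I : ℕ, ∑ i ∈ Finset.range I, R (i + 1) * (1 / bb w p.toReal (i + 1)) ≤ 1 := by
    intro I
    have h1 : Tendsto (fun k => ∑ i ∈ Finset.range I,
        corr E (i + 1) (ψ k) * (1 / bb w p.toReal (i + 1))) atTop
        (𝓝 (∑ i ∈ Finset.range I, R (i + 1) * (1 / bb w p.toReal (i + 1)))) :=
      tendsto_finsetSum _ fun i _ => (hRlim (i + 1)).mul_const _
    exact le_of_tendsto h1 (Eventually.of_forall fun k => hsum2 (ψ k) I)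
  set W : ℝ := max C 1 ^ p.toReal with hW
  have hW1 : 1 ≤ W := Real.one_le_rpow (le_max_right _ _) hq.le
  set M := F.sup id with hM
  have hFM : ∀ f ∈ F, f ≤ M := fun f hf => Finset.le_sup (f := id) hf
  have hpos : ∀ i, 0 < 1 / bb w p.toReal i := fun i => by
    have := bb_pos hw p.toReal i
    positivity
  have hterm : ∀ i, 1 / bb w p.toReal (i + 1) ≤
      W ^ M / ρ * ∑ f ∈ F, R (i + (M - f) + 1) * (1 / bb w p.toReal (i + (M - f) + 1)) := by
    intro i
    obtain ⟨f, hf, hfR⟩ := hF (i + 1 + M) (fun f hf => by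
      have := hFM f hf
      omega)
    have hfM := hFM f hf
    rw [show i + 1 + M - f = i + (M - f) + 1 by omega] at hfR
    have h1 := bb_growth hw hC hq (i + 1) (M - f)
    rw [show i + 1 + (M - f) = i + (M - f) + 1 by omega] at h1
    have h2 : W ^ (M - f) ≤ W ^ M := pow_le_pow_right₀ hW1 (Nat.sub_le _ _)
    have h3 := hpos (i + (M - f) + 1)
    calc 1 / bb w p.toReal (i + 1) ≤ W ^ (M - f) * (1 / bb w p.toReal (i + (M - f) + 1)) := h1
      _ ≤ W ^ M * (1 / bb w p.toReal (i + (M - f) + 1)) := by gcongr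
      _ = W ^ M / ρ * (ρ * (1 / bb w p.toReal (i + (M - f) + 1))) := by field_simp
      _ ≤ W ^ M / ρ * (R (i + (M - f) + 1) * (1 / bb w p.toReal (i + (M - f) + 1))) := by
          gcongr
      _ ≤ _ := by
          apply mul_le_mul_of_nonneg_left _ (by positivity)
          exact Finset.single_le_sum (f := fun f =>
            R (i + (M - f) + 1) * (1 / bb w p.toReal (i + (M - f) + 1)))
            (fun f _ => mul_nonneg (hR0 _) (hpos _).le) hf
  have hfinal : ∀ I, ∑ i ∈ Finset.range I, 1 / bb w p.toReal (i + 1) ≤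
      W ^ M / ρ * F.card := by
    intro I
    calc ∑ i ∈ Finset.range I, 1 / bb w p.toReal (i + 1)
        ≤ ∑ i ∈ Finset.range I, W ^ M / ρ * ∑ f ∈ F,
          R (i + (M - f) + 1) * (1 / bb w p.toReal (i + (M - f) + 1)) :=
          Finset.sum_le_sum fun i _ => hterm i
      _ = W ^ M / ρ * ∑ f ∈ F, ∑ i ∈ Finset.range I,
          R (i + (M - f) + 1) * (1 / bb w p.toReal (i + (M - f) + 1)) := by
          rw [← Finset.mul_sum, Finset.sum_comm]
      _ ≤ W ^ M / ρ * ∑ f ∈ F, (1 : ℝ) := by
          apply mul_le_mul_of_nonneg_left _ (by positivity)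
          apply Finset.sum_le_sum
          intro f _
          refine le_trans ?_ (hsum3 (I + (M - f)))
          have h1 : ∑ i ∈ Finset.range I, R (i + (M - f) + 1) *
              (1 / bb w p.toReal (i + (M - f) + 1)) =
              ∑ i ∈ (Finset.range I).map ⟨fun i => i + (M - f), add_left_injective _⟩,
              R (i + 1) * (1 / bb w p.toReal (i + 1)) := by
            rw [Finset.sum_map]
            rfl
          rw [h1]
          apply Finset.sum_le_sum_of_subset_of_nonneg
          · intro i hi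
            simp only [Finset.mem_map, Finset.mem_range, Function.Embedding.coeFn_mk] at hi ⊢
            obtain ⟨j, hj, rfl⟩ := hi
            omega
          · intro i _ _
            exact mul_nonneg (hR0 _) (hpos _).le
      _ = W ^ M / ρ * F.card := by simp
  have hs : Summable fun i => 1 / bb w p.toReal (i + 1) :=
    summable_of_sum_range_le (fun i => (hpos _).le) hfinal
  have hs2 : Summable fun i => 1 / bb w p.toReal i :=
    (summable_nat_add_iff 1).1 hs
  refine hs2.congr fun i => ?_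
  rw [bb, norm_beta]

end Pool.Agent.Work.MP_0403fc_an
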