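import Pool.Agent.Work.MP_0403fc_an.NecB

namespace Pool.Agent.Work.MP_0403fc_an

open Filter Topology

variable {𝕜 : Type} [RCLike 𝕜] {p : ENNReal}

/-- In an infinite-dimensional subspace there are unit vectors vanishing on the first
coordinates. -/
theorem exists_unit_tail [Fact (1 ≤ p)] (M : Submodule 𝕜 (SeqSpace 𝕜 p))
    (hM : ¬ FiniteDimensional 𝕜 M) (k : ℕ) :
    ∃ x ∈ M, ‖x‖ = 1 ∧ ∀ i < k, x i = 0 := by
  let ev : M →ₗ[𝕜] (Fin k → 𝕜) :=
    { toFun := fun x i => (x : SeqSpace 𝕜 p) i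
      map_add' := by
        intro x y
        funext i
        rfl
      map_smul' := by
        intro c x
        funext i
        rfl }
  have hker : LinearMap.ker ev ≠ ⊥ := by
    intro h
    exact hM (Module.Finite.of_injective ev (LinearMap.ker_eq_bot.1 h))
  obtain ⟨x, hx, hx0⟩ := Submodule.exists_mem_ne_zero_of_ne_bot hker
  have hx0' : (x : SeqSpace 𝕜 p) ≠ 0 := fun h => hx0 (Subtype.ext h)
  refine ⟨((‖(x : SeqSpace 𝕜 p)‖⁻¹ : ℝ) : 𝕜) • (x : SeqSpace 𝕜 p), M.smul_mem _ x.2, ?_, ?_⟩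
  · rw [norm_smul, RCLike.norm_ofReal, abs_of_nonneg (by positivity),
      inv_mul_cancel₀ (norm_ne_zero_iff.2 hx0')]
  · intro i hi
    rw [lp.coeFn_smul, Pi.smul_apply]
    have h1 : ev x = 0 := hx
    have h2 : ev x ⟨i, hi⟩ = 0 := by rw [h1]; rfl
    have h3 : (x : SeqSpace 𝕜 p) i = 0 := h2
    rw [h3, smul_zero]

theorem norm_pow_trunc_le [Fact (1 ≤ p)] (hp : p ≠ ⊤) {w : ℕ → 𝕜} (hw : ∀ n, w n ≠ 0)
    {T : SeqSpace 𝕜 p →L[𝕜] SeqSpace 𝕜 p} (hT : IsWeightedShift w (fun x => T x))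
    (n L : ℕ) (x y : SeqSpace 𝕜 p) (h : ∀ i, i < L → x i = y i) :
    ‖(T ^ n) (trunc L x)‖ ≤ ‖(T ^ n) y‖ := by
  have hp0 : p ≠ 0 := by
    intro h0
    have := toReal_pos' hp
    rw [h0] at this
    simp at this
  apply lp.norm_mono hp0
  intro i
  rw [pow_apply hw hT, pow_apply hw hT, trunc_apply]
  split_ifs with h1
  · rw [h _ h1]
  · rw [mul_zero, zero_div, norm_zero]
    positivity

theorem norm_pow_tail_le [Fact (1 ≤ p)] (hp : p ≠ ⊤) {w : ℕ → 𝕜} (hw : ∀ n, w n ≠ 0)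
    {T : SeqSpace 𝕜 p →L[𝕜] SeqSpace 𝕜 p} (hT : IsWeightedShift w (fun x => T x))
    (n L : ℕ) (x y : SeqSpace 𝕜 p) (h : ∀ i, L ≤ i → x i = y i) (h0 : ∀ i, i < L → x i = 0) :
    ‖(T ^ n) x‖ ≤ ‖(T ^ n) y‖ := by
  have hp0 : p ≠ 0 := by
    intro h0
    have := toReal_pos' hp
    rw [h0] at this
    simp at this
  apply lp.norm_mono hp0
  intro i
  rw [pow_apply hw hT, pow_apply hw hT]
  rcases lt_or_ge (i + n) L with h1 | h1
  · rw [h0 _ h1, mul_zero, zero_div, norm_zero]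
    positivity
  · rw [h _ h1]

theorem pow_trunc_eq_zero [Fact (1 ≤ p)] {w : ℕ → 𝕜} (hw : ∀ n, w n ≠ 0)
    {T : SeqSpace 𝕜 p →L[𝕜] SeqSpace 𝕜 p} (hT : IsWeightedShift w (fun x => T x))
    (n L : ℕ) (hn : L ≤ n) (x : SeqSpace 𝕜 p) : (T ^ n) (trunc L x) = 0 := by
  apply lp.ext
  funext i
  rw [pow_apply hw hT, trunc_apply, if_neg (by omega), mul_zero, zero_div]
  rfl

/-- Asymptotic version of the uniform frequency estimate. -/
theorem two_step [Fact (1 ≤ p)] (hp : p ≠ ⊤) {w : ℕ → 𝕜} (hw : ∀ n, w n ≠ 0)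
    {T : SeqSpace 𝕜 p →L[𝕜] SeqSpace 𝕜 p} (hT : IsWeightedShift w (fun x => T x))
    {M : Submodule 𝕜 (SeqSpace 𝕜 p)} {k : ℕ} {K : ℝ}
    (huni : ∀ x ∈ M, ‖x‖ ≤ 1 → ∀ N, k ≤ N → N ≤ k * cnt T K N x)
    {x : ℕ → SeqSpace 𝕜 p} (hxM : ∀ j, x j ∈ M) (hx1 : ∀ j, ‖x j‖ = 1)
    (hx0 : ∀ j, ∀ i < j, x j i = 0) {φ : ℕ → ℝ}
    (hφ : ∀ n, Tendsto (fun j => ‖(T ^ n) (x j)‖) atTop (𝓝 (φ n))) (j N : ℕ) (hN : k ≤ N) :
    N ≤ k * {n ∈ Finset.Icc 1 N | ‖(T ^ n) (x j)‖ ≤ 2 * K + 1 ∧ φ n ≤ 2 * K + 1}.card := by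
  classical
  -- truncation
  have h1 : ∀ᶠ L in atTop, ∀ n ∈ Finset.Icc 1 N, ‖(T ^ n) (x j - trunc L (x j))‖ < 1 / 2 := by
    rw [Filter.eventually_all_finset]
    intro n _
    have h2 : Tendsto (fun L => ‖(T ^ n) (x j - trunc L (x j))‖) atTop (𝓝 ‖(T ^ n) (x j - x j)‖) :=
      ((T ^ n).continuous.norm.tendsto _).comp (tendsto_const_nhds.sub (trunc_tendsto hp (x j)))
    rw [sub_self, map_zero, norm_zero] at h2
    exact h2.eventually_lt_const (by norm_num)
  obtain ⟨L, hL⟩ := h1.exists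
  have h3 : ∀ᶠ i in atTop, ∀ n ∈ Finset.Icc 1 N, φ n < ‖(T ^ n) (x i)‖ + 1 / 2 := by
    rw [Filter.eventually_all_finset]
    intro n _
    have h4 := (hφ n).add_const (1 / 2 : ℝ)
    exact h4.eventually_const_lt (by linarith)
  obtain ⟨i, hi, hiL⟩ := (h3.and (eventually_ge_atTop L)).exists
  -- the average
  have hsumM : ((1 / 2 : ℝ) : 𝕜) • (x j + x i) ∈ M :=
    M.smul_mem _ (M.add_mem (hxM j) (hxM i))
  have hnormhalf : ‖((1 / 2 : ℝ) : 𝕜)‖ = 1 / 2 := by
    rw [RCLike.norm_ofReal, abs_of_nonneg (by norm_num)]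
  have hsum1 : ‖((1 / 2 : ℝ) : 𝕜) • (x j + x i)‖ ≤ 1 := by
    rw [norm_smul, hnormhalf]
    have := norm_add_le (x j) (x i)
    rw [hx1, hx1] at this
    linarith
  refine (huni _ hsumM hsum1 N hN).trans (Nat.mul_le_mul_left k ?_)
  unfold cnt
  apply Finset.card_le_card
  intro n hn
  rw [Finset.mem_filter] at hn ⊢
  obtain ⟨hnN, hnK⟩ := hn
  rw [map_smul, norm_smul, hnormhalf] at hnK
  have hS : ‖(T ^ n) (x j + x i)‖ ≤ 2 * K := by linarith
  have hLn := hL n hnN
  have hin := hi n hnN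
  have hsub : ‖(T ^ n) (x j) - (T ^ n) (trunc L (x j))‖ < 1 / 2 := by
    rw [← map_sub]
    exact hLn
  -- the truncated part
  have hA : ‖(T ^ n) (trunc L (x j))‖ ≤ ‖(T ^ n) (x j + x i)‖ := by
    apply norm_pow_trunc_le hp hw hT
    intro c hc
    rw [lp.coeFn_add, Pi.add_apply, hx0 i c (by omega), add_zero]
  have hB : ‖(T ^ n) (x i)‖ ≤ ‖(T ^ n) (trunc L (x j) + x i)‖ := by
    apply norm_pow_tail_le hp hw hT n L
    · intro c hc
      rw [lp.coeFn_add, Pi.add_apply, trunc_apply, if_neg (by omega), zero_add]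
    · intro c hc
      exact hx0 i c (by omega)
  have hC : ‖(T ^ n) (trunc L (x j) + x i)‖ ≤ ‖(T ^ n) (x j + x i)‖ + 1 / 2 := by
    have h5 : (T ^ n) (trunc L (x j) + x i) = (T ^ n) (x j + x i) -
        ((T ^ n) (x j) - (T ^ n) (trunc L (x j))) := by
      rw [map_add, map_add]
      abel
    rw [h5]
    have := norm_sub_le ((T ^ n) (x j + x i)) ((T ^ n) (x j) - (T ^ n) (trunc L (x j)))
    linarith
  refine ⟨hnN, ?_, ?_⟩
  · have h6 : (T ^ n) (x j) = (T ^ n) (trunc L (x j)) +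
        ((T ^ n) (x j) - (T ^ n) (trunc L (x j))) := by abel
    have h7 := norm_add_le ((T ^ n) (trunc L (x j))) ((T ^ n) (x j) - (T ^ n) (trunc L (x j)))
    rw [← h6] at h7
    linarith
  · linarith

theorem necessity_b [Fact (1 ≤ p)] (hp : p ≠ ⊤) {w : ℕ → 𝕜} (hw : ∀ n, w n ≠ 0)
    {T : SeqSpace 𝕜 p →L[𝕜] SeqSpace 𝕜 p} (hT : IsWeightedShift w (fun x => T x))
    (M : Submodule 𝕜 (SeqSpace 𝕜 p)) (hMcl : IsClosed (M : Set (SeqSpace 𝕜 p)))
    (hMinf : ¬ FiniteDimensional 𝕜 M)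
    (hFH : ∀ x ∈ M, x ≠ 0 → IsFreqHypercyclicVector (fun y => T y) x) :
    FlatBlocks w p.toReal := by
  classical
  have hq := toReal_pos' hp
  obtain ⟨k, hk, K, hK0, huni⟩ := baire_step T M hMcl hFH
  choose x' hx'M hx'1 hx'0 using exists_unit_tail M hMinf
  -- pass to a subsequence
  have hcpt : IsCompact (Set.pi Set.univ (fun n : ℕ => Set.Icc (0 : ℝ) ‖T ^ n‖)) :=
    isCompact_univ_pi fun _ => isCompact_Icc
  obtain ⟨φ, -, θ, hθ, hlim⟩ := hcpt.tendsto_subseq (x := fun j n => ‖(T ^ n) (x' j)‖)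
    (fun j => by
      intro n _
      refine ⟨norm_nonneg _, ?_⟩
      have := (T ^ n).le_opNorm (x' j)
      rwa [hx'1, mul_one] at this)
  rw [tendsto_pi_nhds] at hlim
  let x : ℕ → SeqSpace 𝕜 p := fun j => x' (θ j)
  have hxM : ∀ j, x j ∈ M := fun j => hx'M _
  have hx1 : ∀ j, ‖x j‖ = 1 := fun j => hx'1 _
  have hx0 : ∀ j, ∀ i < j, x j i = 0 := fun j i hi => hx'0 _ i (lt_of_lt_of_le hi hθ.le_apply)
  have hφ : ∀ n, Tendsto (fun j => ‖(T ^ n) (x j)‖) atTop (𝓝 (φ n)) := fun n => hlim n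
  set K₃ : ℝ := 2 * K + 1 with hK₃
  have htwo := two_step hp hw hT huni hxM hx1 hx0 hφ
  -- selection
  have hsel : ∀ s ℓ : ℕ, ∃ j ℓ' : ℕ, s ≤ j ∧ (∀ n ≤ ℓ, ‖(T ^ n) (x j)‖ ≤ φ n + 1) ∧
      ‖x j - trunc ℓ' (x j)‖ ≤ 1 / 2 ∧ 2 * k * ℓ ≤ ℓ' ∧ k ≤ ℓ' ∧ ℓ < ℓ' := by
    intro s ℓ
    have h1 : ∀ᶠ j in atTop, ∀ n ∈ Finset.range (ℓ + 1), ‖(T ^ n) (x j)‖ < φ n + 1 := by
      rw [Filter.eventually_all_finset]
      intro n _
      exact (hφ n).eventually_lt_const (by linarith)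
    obtain ⟨j, hj1, hj2⟩ := (h1.and (eventually_ge_atTop s)).exists
    have h2 : ∀ᶠ L in atTop, ‖x j - trunc L (x j)‖ < 1 / 2 := by
      have h3 : Tendsto (fun L => ‖x j - trunc L (x j)‖) atTop (𝓝 ‖x j - x j‖) :=
        (tendsto_const_nhds.sub (trunc_tendsto hp (x j))).norm
      rw [sub_self, norm_zero] at h3
      exact h3.eventually_lt_const (by norm_num)
    obtain ⟨L, hL1, hL2⟩ := (h2.and (eventually_ge_atTop (2 * k * ℓ + k + ℓ + 1))).exists
    exact ⟨j, L, hj2, fun n hn => (hj1 n (Finset.mem_range.2 (by omega))).le, hL1.le, by omega,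
      by omega, by omega⟩
  choose jf lf hj1 hj2 hj3 hj4 hj5 hj6 using hsel
  let len : ℕ → ℕ := fun s => Nat.rec 0 (fun s ℓ => lf s ℓ) s
  have hlen0 : len 0 = 0 := rfl
  have hlen : ∀ s, len (s + 1) = lf s (len s) := fun s => rfl
  have hlenmono : StrictMono len := by
    apply strictMono_nat_of_lt_succ
    intro s
    rw [hlen]
    exact hj6 s (len s)
  let js : ℕ → ℕ := fun s => jf s (len s)
  let z : ℕ → SeqSpace 𝕜 p := fun s => trunc (len (s + 1)) (x (js s))
  have hzle : ∀ s n, ‖(T ^ n) (z s)‖ ≤ ‖(T ^ n) (x (js s))‖ := fun s n =>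
    norm_pow_trunc_le hp hw hT n _ _ _ (fun _ _ => rfl)
  let A : Set ℕ := {n | ∀ s, ‖(T ^ n) (z s)‖ ≤ K₃ + 1}
  -- local density
  have hloc : ∀ s N, len s < N → N ≤ len (s + 1) → k ≤ N →
      N ≤ k * ((A ∩ Set.Icc 1 N).ncard + len s) := by
    intro s N hN1 hN2 hkN
    refine (htwo (js s) N hkN).trans (Nat.mul_le_mul_left k ?_)
    rw [← Set.ncard_coe_finset]
    calc (({n ∈ Finset.Icc 1 N | ‖(T ^ n) (x (js s))‖ ≤ K₃ ∧ φ n ≤ K₃} : Finset ℕ) :
          Set ℕ).ncard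
        ≤ ((A ∩ Set.Icc 1 N) ∪ Set.Icc 1 (len s)).ncard := by
          apply Set.ncard_le_ncard
          · intro n hn
            simp only [Finset.coe_filter, Finset.mem_Icc, Set.mem_ofPred_eq] at hn
            obtain ⟨⟨hn1, hn2⟩, hn3, hn4⟩ := hn
            rcases le_or_gt n (len s) with h | h
            · right
              exact ⟨hn1, h⟩
            · left
              refine ⟨?_, hn1, hn2⟩
              intro s'
              rcases lt_trichotomy s' s with h1 | h1 | h1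
              · have h2 : len (s' + 1) ≤ len s := hlenmono.monotone h1
                have h3 : (T ^ n) (z s') = 0 := pow_trunc_eq_zero hw hT n _ (by omega) _
                rw [h3, norm_zero]
                positivity
              · rw [h1]
                have := hzle s n
                linarith
              · have h2 : len (s + 1) ≤ len s' := hlenmono.monotone h1
                have h3 := hj2 s' (len s') n (by omega)
                have h4 := hzle s' n
                have h5 : ‖(T ^ n) (x (js s'))‖ ≤ φ n + 1 := h3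
                linarith
          · exact ((Set.finite_Icc 1 N).inter_of_right A).union (Set.finite_Icc 1 (len s))
      _ ≤ (A ∩ Set.Icc 1 N).ncard + (Set.Icc 1 (len s)).ncard := Set.ncard_union_le _ _
      _ = (A ∩ Set.Icc 1 N).ncard + len s := by
          congr 1
          rw [Set.ncard_eq_toFinset_card']
          simp
  have hgood : ∀ s N, len s < N → N ≤ len (s + 1) → k ≤ N → 2 * k * len s ≤ N →
      N ≤ 2 * k * (A ∩ Set.Icc 1 N).ncard := by
    intro s N h1 h2 h3 h4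
    have h5 := hloc s N h1 h2 h3
    nlinarith
  have hA : 0 < lowerDensity A := by
    rw [lowerDensity_pos_iff]
    refine ⟨1 / (4 * k ^ 2), by positivity, k, fun N hN => ?_⟩
    have hex : ∃ s, N ≤ len (s + 1) := ⟨N, (hlenmono.le_apply (x := N)).trans
      (hlenmono.monotone (Nat.le_succ N))⟩
    set s := Nat.find hex with hs
    have hs1 : N ≤ len (s + 1) := Nat.find_spec hex
    have hs2 : len s < N := by
      rcases Nat.eq_zero_or_pos s with h | h
      · rw [h, hlen0]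
        omega
      · have h1 := Nat.find_min hex (m := s - 1) (by omega)
        rw [Nat.sub_add_cancel h] at h1
        omega
    clear_value s
    have hmain : N ≤ 4 * k ^ 2 * (A ∩ Set.Icc 1 N).ncard := by
      rcases le_or_gt (2 * k * len s) N with h1 | h1
      · have h2 := hgood s N hs2 hs1 hN h1
        refine h2.trans (Nat.mul_le_mul_right _ ?_)
        nlinarith
      · have hspos : 0 < s := by
          by_contra h
          have : s = 0 := by omega
          rw [this, hlen0] at h1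
          omega
        obtain ⟨t, rfl⟩ : ∃ t, s = t + 1 := ⟨s - 1, by omega⟩
        have h2 := hgood t (len (t + 1)) (hlenmono (Nat.lt_succ_self t)) le_rfl
          (hj5 t (len t)) (hj4 t (len t))
        have h3 : (A ∩ Set.Icc 1 (len (t + 1))).ncard ≤ (A ∩ Set.Icc 1 N).ncard := by
          apply Set.ncard_le_ncard
          · apply Set.inter_subset_inter_right
            exact Set.Icc_subset_Icc_right hs2.le
          · exact (Set.finite_Icc 1 N).inter_of_right A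
        calc N ≤ 2 * k * len (t + 1) := h1.le
          _ ≤ 2 * k * (2 * k * (A ∩ Set.Icc 1 (len (t + 1))).ncard) :=
              Nat.mul_le_mul_left _ h2
          _ ≤ 2 * k * (2 * k * (A ∩ Set.Icc 1 N).ncard) :=
              Nat.mul_le_mul_left _ (Nat.mul_le_mul_left _ h3)
          _ = 4 * k ^ 2 * (A ∩ Set.Icc 1 N).ncard := by ring
    have hmain' : (N : ℝ) ≤ 4 * (k : ℝ) ^ 2 * ((A ∩ Set.Icc 1 N).ncard : ℝ) := by
      exact_mod_cast hmain
    have hkpos : (0 : ℝ) < k := by exact_mod_cast hk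
    rw [div_mul_eq_mul_div, one_mul, div_le_iff₀ (by positivity)]
    linarith
  -- the blocks
  refine ⟨A, hA, (2 * (K₃ + 1)) ^ p.toReal, fun N => ?_⟩
  set s := N + 1 with hs
  have hzn : 1 / 2 ≤ ‖z s‖ := by
    have h1 := hj3 s (len s)
    have h2 : ‖x (js s)‖ = 1 := hx1 _
    have h3 : ‖x (js s) - z s‖ ≤ 1 / 2 := h1
    have h4 := norm_sub_norm_le (x (js s)) (x (js s) - z s)
    rw [sub_sub_cancel] at h4
    linarith
  have hzpos : 0 < ‖z s‖ := by linarith
  have hzsupp : ∀ m, m ∉ Finset.Ico (js s) (len (s + 1)) → z s m = 0 := by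
    intro m hm
    rw [Finset.mem_Ico, not_and_or, not_le, not_lt] at hm
    simp only [z, trunc_apply]
    rcases hm with hm | hm
    · rw [hx0 _ m hm, ite_self]
    · rw [if_neg (by omega)]
  have hznorm : ‖z s‖ ^ p.toReal = ∑ m ∈ Finset.Ico (js s) (len (s + 1)), ‖z s m‖ ^ p.toReal := by
    rw [lp.norm_rpow_eq_tsum hq]
    apply tsum_eq_sum
    intro m hm
    rw [hzsupp m hm, norm_zero, Real.zero_rpow hq.ne']
  have hzq : 0 < ‖z s‖ ^ p.toReal := Real.rpow_pos_of_pos hzpos _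
  refine ⟨Finset.Ico (js s) (len (s + 1)), fun m => ‖z s m‖ ^ p.toReal / ‖z s‖ ^ p.toReal,
    ?_, ?_, ?_, ?_⟩
  · intro m hm
    have h1 : s ≤ js s := hj1 s (len s)
    have h2 := (Finset.mem_Ico.1 hm).1
    omega
  · intro m _
    positivity
  · rw [← Finset.sum_div, ← hznorm, div_self hzq.ne']
  · intro n hn
    have hTz : ‖(T ^ n) (z s)‖ ≤ K₃ + 1 := hn s
    have h1 : ∑ m ∈ Finset.Ico (js s) (len (s + 1)),
        ‖z s m‖ ^ p.toReal * blockWeight w n m ^ p.toReal ≤ ‖(T ^ n) (z s)‖ ^ p.toReal := by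
      have h2 : ∑ m ∈ Finset.Ico (js s) (len (s + 1)),
          ‖z s m‖ ^ p.toReal * blockWeight w n m ^ p.toReal =
          ∑ m ∈ (Finset.Ico (js s) (len (s + 1))).filter (fun m => n ≤ m),
          ‖(T ^ n) (z s) (m - n)‖ ^ p.toReal := by
        rw [Finset.sum_filter]
        refine Finset.sum_congr rfl fun m _ => ?_
        split_ifs with hnm
        · rw [norm_pow_apply_rpow hw hT, Nat.sub_add_cancel hnm, blockWeight_eq hw hnm,
            Real.div_rpow (norm_nonneg _) (norm_nonneg _), mul_comm]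
          rfl
        · rw [blockWeight, if_neg hnm, Real.zero_rpow hq.ne', mul_zero]
      rw [h2]
      have h3 : ∑ m ∈ (Finset.Ico (js s) (len (s + 1))).filter (fun m => n ≤ m),
          ‖(T ^ n) (z s) (m - n)‖ ^ p.toReal =
          ∑ i ∈ ((Finset.Ico (js s) (len (s + 1))).filter (fun m => n ≤ m)).image
            (fun m => m - n), ‖(T ^ n) (z s) i‖ ^ p.toReal := by
        rw [Finset.sum_image]
        intro a ha b hb hab
        simp only [Finset.coe_filter, Set.mem_ofPred_eq] at ha hb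
        have h4 := ha.2
        have h5 := hb.2
        simp only at hab
        omega
      rw [h3]
      exact lp.sum_rpow_le_norm_rpow hq _ _
    have h2 : ∑ m ∈ Finset.Ico (js s) (len (s + 1)),
        ‖z s m‖ ^ p.toReal / ‖z s‖ ^ p.toReal * blockWeight w n m ^ p.toReal =
        (∑ m ∈ Finset.Ico (js s) (len (s + 1)),
        ‖z s m‖ ^ p.toReal * blockWeight w n m ^ p.toReal) / ‖z s‖ ^ p.toReal := by
      rw [Finset.sum_div]
      exact Finset.sum_congr rfl fun m _ => by ring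
    rw [h2, div_le_iff₀ hzq]
    refine h1.trans ?_
    rw [← Real.mul_rpow (by positivity) (norm_nonneg _)]
    apply Real.rpow_le_rpow (norm_nonneg _) _ hq.le
    nlinarith

end Pool.Agent.Work.MP_0403fc_an
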