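import Pool.Agent.Work.MP_0403fc_an.Suff
import Pool.Agent.Work.MP_0403fc_an.NecA2
import Pool.Agent.Work.MP_0403fc_an.NecB2

/-!
# Weighted backward shifts on `ℓ^p` with a frequently hypercyclic subspace

We characterise, for `1 ≤ p < ∞` and real or complex scalars, the weighted backward shifts on
`ℓ^p` that possess a frequently hypercyclic subspace.
-/

namespace Pool.Agent.Work.MP_0403fc_an.Final

open Pool.Agent.Work.MP_0403fc_an

/-- A weighted backward shift `B_w` on `ℓ^p` has a frequently hypercyclic subspace if and only if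
(a) `∑_m 1 / |w_1 ⋯ w_m|^p < ∞` and (b) there are a set `A` of positive lower density and a bound
`K` such that arbitrarily far out there are finitely supported probability vectors `ζ` with
`∑_{m ≥ n} ζ_m |w_{m-n+1} ⋯ w_m|^p ≤ K` for all `n ∈ A`. -/
theorem result (𝕜 : Type) [RCLike 𝕜] (p : ENNReal) [Fact (1 ≤ p)] (hp : p ≠ ⊤)
    (w : ℕ → 𝕜) (hw : ∀ n, w n ≠ 0) (hbdd : ∃ C : ℝ, ∀ n, ‖w n‖ ≤ C) :
    (∃ T : SeqSpace 𝕜 p →L[𝕜] SeqSpace 𝕜 p, IsWeightedShift w (fun x => T x)) ∧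
    ∀ T : SeqSpace 𝕜 p →L[𝕜] SeqSpace 𝕜 p, IsWeightedShift w (fun x => T x) →
      (HasFreqHypercyclicSubspace T ↔
        WeightSummable w p.toReal ∧ FlatBlocks w p.toReal) := by
  obtain ⟨C, hC⟩ := hbdd
  refine ⟨exists_weightedShift hp w C hC, fun T hT => ⟨?_, ?_⟩⟩
  · rintro ⟨M, hMcl, hMinf, hFH⟩
    refine ⟨?_, necessity_b hp hw hT M hMcl hMinf hFH⟩
    obtain ⟨x, hxM, hx1, -⟩ := exists_unit_tail M hMinf 0
    have hx0 : x ≠ 0 := by
      rintro rfl
      rw [norm_zero] at hx1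
      exact zero_ne_one hx1
    exact necessity_a hp hw hC hT x (hFH x hxM hx0)
  · rintro ⟨ha, hb⟩
    exact sufficiency hp hw hT ha hb

end Pool.Agent.Work.MP_0403fc_an.Final
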