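import Pool.Agent.Work.MP_0403fc_an.Density
import Pool.Agent.Work.MP_0403fc_an.Basic

namespace Pool.Agent.Work.MP_0403fc_an

open Filter Topology

/-- Shifting a window changes the sum of a `[0,1]`-valued function by at most the shift. -/
theorem shift_sum (g : ℕ → ℝ) (hg0 : ∀ n, 0 ≤ g n) (hg1 : ∀ n, g n ≤ 1) (N f : ℕ) :
    ∑ n ∈ Finset.range N, g (n + f) ≤ ∑ n ∈ Finset.range N, g n + f ∧
    ∑ n ∈ Finset.range N, g n - f ≤ ∑ n ∈ Finset.range N, g (n + f) := by
  induction f with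
  | zero => simp
  | succ f ih =>
    have h1 : ∑ n ∈ Finset.range N, g (n + (f + 1)) =
        ∑ n ∈ Finset.range N, g (n + f) + g (N + f) - g f := by
      have h2 := Finset.sum_range_succ (fun n => g (n + f)) N
      have h3 := Finset.sum_range_succ' (fun n => g (n + f)) N
      rw [h2] at h3
      have h4 : ∑ n ∈ Finset.range N, g (n + 1 + f) = ∑ n ∈ Finset.range N, g (n + (f + 1)) :=
        Finset.sum_congr rfl fun n _ => by congr 1; ring
      rw [h4, zero_add] at h3
      linarith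
    rw [h1]
    have h5 := hg0 f
    have h6 := hg1 f
    have h7 := hg0 (N + f)
    have h8 := hg1 (N + f)
    push_cast
    constructor <;> linarith [ih.1, ih.2]

/-- The indicator function. -/
noncomputable def chi (E : Set ℕ) (n : ℕ) : ℝ := E.indicator (fun _ => (1 : ℝ)) n

theorem chi_nonneg (E : Set ℕ) (n : ℕ) : 0 ≤ chi E n := by
  unfold chi
  exact Set.indicator_nonneg (fun _ _ => zero_le_one) n

theorem chi_le_one (E : Set ℕ) (n : ℕ) : chi E n ≤ 1 := by
  unfold chi
  exact Set.indicator_le_self' (fun _ _ => zero_le_one) n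

theorem exists_chi_lower {E : Set ℕ} (hE : 0 < lowerDensity E) :
    ∃ c : ℝ, 0 < c ∧ ∃ N₀ : ℕ, ∀ N, N₀ ≤ N → c * N ≤ ∑ n ∈ Finset.range N, chi E n := by
  classical
  rw [lowerDensity_pos_iff] at hE
  obtain ⟨c, hc, N₀, h⟩ := hE
  refine ⟨c / 2, by positivity, N₀ + 2, fun N hN => ?_⟩
  obtain ⟨M, rfl⟩ : ∃ M, N = M + 1 := ⟨N - 1, by omega⟩
  have h1 := h M (by omega)
  have h2 : ((E ∩ Set.Icc 1 M).ncard : ℝ) ≤ ∑ n ∈ Finset.range (M + 1), chi E n := by
    have h3 : ∑ n ∈ Finset.range (M + 1), chi E n =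
        (((Finset.range (M + 1)).filter (fun n => n ∈ E)).card : ℝ) := by
      rw [Finset.card_filter]
      push_cast
      refine Finset.sum_congr rfl fun n _ => ?_
      unfold chi
      rw [Set.indicator_apply]
    rw [h3, ← Set.ncard_coe_finset]
    have : (E ∩ Set.Icc 1 M).ncard ≤
        ((Finset.range (M + 1)).filter (fun n => n ∈ E) : Set ℕ).ncard := by
      apply Set.ncard_le_ncard _ (Finset.finite_toSet _)
      intro n hn
      simp only [Set.mem_inter_iff, Set.mem_Icc] at hn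
      simp only [Finset.coe_filter, Finset.mem_range, Set.mem_ofPred_eq]
      exact ⟨by omega, hn.1⟩
    exact_mod_cast this
  have h4 : (1 : ℝ) ≤ M := by
    have : 1 ≤ M := by omega
    exact_mod_cast this
  push_cast
  nlinarith

/-- Finite correlations. -/
noncomputable def corr (E : Set ℕ) (i N : ℕ) : ℝ :=
  (∑ n ∈ Finset.range N, chi E n * chi E (n + i)) / N

theorem corr_nonneg (E : Set ℕ) (i N : ℕ) : 0 ≤ corr E i N := by
  unfold corr
  apply div_nonneg _ (Nat.cast_nonneg _)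
  exact Finset.sum_nonneg fun n _ => mul_nonneg (chi_nonneg _ _) (chi_nonneg _ _)

theorem corr_le_one (E : Set ℕ) (i N : ℕ) : corr E i N ≤ 1 := by
  unfold corr
  apply div_le_one_of_le₀ _ (Nat.cast_nonneg _)
  calc ∑ n ∈ Finset.range N, chi E n * chi E (n + i) ≤ ∑ n ∈ Finset.range N, (1 : ℝ) := by
        apply Finset.sum_le_sum
        intro n _
        exact mul_le_one₀ (chi_le_one _ _) (chi_nonneg _ _) (chi_le_one _ _)
    _ = N := by simp

/-- The distance between two natural numbers. -/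
def dd (f g : ℕ) : ℕ := (f - g) + (g - f)

theorem pair_sum_le (E : Set ℕ) (N f g M : ℕ) (hf : f ≤ M) (hg : g ≤ M) :
    ∑ n ∈ Finset.range N, chi E (n + f) * chi E (n + g) ≤
      ∑ n ∈ Finset.range N, chi E n * chi E (n + dd f g) + M := by
  have key : ∀ f g, f ≤ g → g ≤ M → ∑ n ∈ Finset.range N, chi E (n + f) * chi E (n + g) ≤
      ∑ n ∈ Finset.range N, chi E n * chi E (n + (g - f)) + M := by
    intro f g hfg hgM
    have h1 := (shift_sum (fun n => chi E n * chi E (n + (g - f)))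
      (fun n => mul_nonneg (chi_nonneg _ _) (chi_nonneg _ _))
      (fun n => mul_le_one₀ (chi_le_one _ _) (chi_nonneg _ _) (chi_le_one _ _)) N f).1
    have h2 : ∑ n ∈ Finset.range N, chi E (n + f) * chi E (n + g) =
        ∑ n ∈ Finset.range N, chi E (n + f) * chi E (n + f + (g - f)) :=
      Finset.sum_congr rfl fun n _ => by rw [show n + f + (g - f) = n + g by omega]
    rw [h2]
    have h3 : (f : ℝ) ≤ M := by exact_mod_cast hfg.trans hgM
    linarith
  rcases le_total f g with h | h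
  · have := key f g h hg
    rwa [dd, Nat.sub_eq_zero_of_le h, zero_add]
  · have := key g f h hf
    rw [dd, Nat.sub_eq_zero_of_le h, add_zero]
    refine le_trans (le_of_eq ?_) this
    exact Finset.sum_congr rfl fun n _ => mul_comm _ _

/-- The key inequality for limit correlations. -/
theorem corr_limit_ineq {E : Set ℕ} {c : ℝ} (hc : 0 < c) {N₀ : ℕ}
    (hE : ∀ N, N₀ ≤ N → c * N ≤ ∑ n ∈ Finset.range N, chi E n)
    {ψ : ℕ → ℕ} (hψ : Tendsto ψ atTop atTop) {R : ℕ → ℝ}
    (hR : ∀ i, Tendsto (fun k => corr E i (ψ k)) atTop (𝓝 (R i))) (F : Finset ℕ) :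
    ((F.card : ℝ) * c) ^ 2 ≤ ∑ f ∈ F, ∑ g ∈ F, R (dd f g) := by
  classical
  set M := F.sup id with hM
  have hFM : ∀ f ∈ F, f ≤ M := fun f hf => Finset.le_sup (f := id) hf
  have hinv : Tendsto (fun k => (M : ℝ) / (ψ k : ℝ)) atTop (𝓝 0) :=
    (tendsto_const_div_atTop_nhds_zero_nat (M : ℝ)).comp hψ
  have hL : Tendsto (fun k => ((F.card : ℝ) * (c - (M : ℝ) / (ψ k : ℝ))) ^ 2) atTop
      (𝓝 (((F.card : ℝ) * (c - 0)) ^ 2)) :=
    ((tendsto_const_nhds.sub hinv).const_mul _).pow 2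
  rw [sub_zero] at hL
  have hRt : Tendsto (fun k => ∑ f ∈ F, ∑ g ∈ F, (corr E (dd f g) (ψ k) + (M : ℝ) / (ψ k : ℝ)))
      atTop (𝓝 (∑ f ∈ F, ∑ g ∈ F, (R (dd f g) + 0))) :=
    tendsto_finsetSum _ fun f _ => tendsto_finsetSum _ fun g _ => (hR _).add hinv
  simp only [add_zero] at hRt
  refine le_of_tendsto_of_tendsto hL hRt ?_
  have hlarge : ∀ᶠ k in atTop, c - (M : ℝ) / (ψ k : ℝ) > 0 := by
    have : Tendsto (fun k => c - (M : ℝ) / (ψ k : ℝ)) atTop (𝓝 (c - 0)) :=
      tendsto_const_nhds.sub hinv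
    rw [sub_zero] at this
    exact this.eventually_const_lt hc
  filter_upwards [hlarge, hψ.eventually_ge_atTop (N₀ + 1)] with k hk1 hk2
  set N := ψ k with hN
  have hNpos : (0 : ℝ) < N := by
    have : 0 < N := by omega
    exact_mod_cast this
  have h1 : (F.card : ℝ) * (c * N - M) ≤ ∑ n ∈ Finset.range N, ∑ f ∈ F, chi E (n + f) := by
    rw [Finset.sum_comm]
    calc (F.card : ℝ) * (c * N - M) = ∑ f ∈ F, (c * N - M) := by
          rw [Finset.sum_const, nsmul_eq_mul]
      _ ≤ _ := by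
          apply Finset.sum_le_sum
          intro f hf
          have h2 := (shift_sum (chi E) (chi_nonneg E) (chi_le_one E) N f).2
          have h3 := hE N (by omega)
          have h4 : (f : ℝ) ≤ M := by exact_mod_cast hFM f hf
          linarith
  have h2 : (∑ n ∈ Finset.range N, ∑ f ∈ F, chi E (n + f)) ^ 2 ≤
      N * ∑ n ∈ Finset.range N, (∑ f ∈ F, chi E (n + f)) ^ 2 := by
    have := sq_sum_le_card_mul_sum_sq (s := Finset.range N)
      (f := fun n => ∑ f ∈ F, chi E (n + f))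
    rwa [Finset.card_range] at this
  have h3 : ∑ n ∈ Finset.range N, (∑ f ∈ F, chi E (n + f)) ^ 2 ≤
      ∑ f ∈ F, ∑ g ∈ F, (∑ n ∈ Finset.range N, chi E n * chi E (n + dd f g) + M) := by
    calc ∑ n ∈ Finset.range N, (∑ f ∈ F, chi E (n + f)) ^ 2
        = ∑ n ∈ Finset.range N, ∑ f ∈ F, ∑ g ∈ F, chi E (n + f) * chi E (n + g) := by
          refine Finset.sum_congr rfl fun n _ => ?_
          rw [sq, Finset.sum_mul_sum]
      _ = ∑ f ∈ F, ∑ g ∈ F, ∑ n ∈ Finset.range N, chi E (n + f) * chi E (n + g) := by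
          rw [Finset.sum_comm]
          refine Finset.sum_congr rfl fun f _ => ?_
          rw [Finset.sum_comm]
      _ ≤ _ := by
          apply Finset.sum_le_sum
          intro f hf
          apply Finset.sum_le_sum
          intro g hg
          exact pair_sum_le E N f g M (hFM f hf) (hFM g hg)
  have h4 : 0 ≤ (F.card : ℝ) * (c * N - M) := by
    have : 0 < c * N - M := by
      have := mul_pos hk1 hNpos
      rw [sub_mul, div_mul_cancel₀ _ hNpos.ne'] at this
      exact this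
    positivity
  have h5 : ((F.card : ℝ) * (c * N - M)) ^ 2 ≤
      N * ∑ f ∈ F, ∑ g ∈ F, (∑ n ∈ Finset.range N, chi E n * chi E (n + dd f g) + M) := by
    calc ((F.card : ℝ) * (c * N - M)) ^ 2 ≤
        (∑ n ∈ Finset.range N, ∑ f ∈ F, chi E (n + f)) ^ 2 := by gcongr
      _ ≤ _ := h2.trans (by gcongr)
  have h6 : ((F.card : ℝ) * (c - (M : ℝ) / N)) ^ 2 = ((F.card : ℝ) * (c * N - M)) ^ 2 / N ^ 2 := by
    field_simp
  have h7 : ∑ f ∈ F, ∑ g ∈ F, (corr E (dd f g) N + (M : ℝ) / N) =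
      (N * ∑ f ∈ F, ∑ g ∈ F, (∑ n ∈ Finset.range N, chi E n * chi E (n + dd f g) + M)) /
        N ^ 2 := by
    have h8 : ∀ f g, corr E (dd f g) N + (M : ℝ) / N =
        (∑ n ∈ Finset.range N, chi E n * chi E (n + dd f g) + M) / N := by
      intro f g
      unfold corr
      ring
    simp_rw [h8, ← Finset.sum_div]
    field_simp
  rw [h6, h7]
  gcongr

/-- A set of positive lower density has limit correlations that are large on a syndetic set. -/
theorem exists_corr {E : Set ℕ} (hE : 0 < lowerDensity E) :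
    ∃ (ψ : ℕ → ℕ) (R : ℕ → ℝ), Tendsto ψ atTop atTop ∧ (∀ i, 0 ≤ R i) ∧
      (∀ i, Tendsto (fun k => corr E i (ψ k)) atTop (𝓝 (R i))) ∧
      ∃ ρ : ℝ, 0 < ρ ∧ ∃ F : Finset ℕ, F.Nonempty ∧
        ∀ j, (∀ f ∈ F, f < j) → ∃ f ∈ F, ρ ≤ R (j - f) := by
  classical
  obtain ⟨c, hc, N₀, hE'⟩ := exists_chi_lower hE
  have hcpt : IsCompact (Set.pi Set.univ (fun _ : ℕ => Set.Icc (0 : ℝ) 1)) :=
    isCompact_univ_pi fun _ => isCompact_Icc
  obtain ⟨R, hR, ψ, hψ, hlim⟩ := hcpt.tendsto_subseq (x := fun N i => corr E i N)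
    (fun N => by
      intro i _
      exact ⟨corr_nonneg E i N, corr_le_one E i N⟩)
  rw [tendsto_pi_nhds] at hlim
  have hR' : ∀ i, R i ∈ Set.Icc (0 : ℝ) 1 := fun i => hR i (Set.mem_univ i)
  refine ⟨ψ, R, hψ.tendsto_atTop, fun i => (hR' i).1, fun i => hlim i, c ^ 2 / 2, by positivity, ?_⟩
  by_contra hcon
  push Not at hcon
  have hbig : ∀ n : ℕ, ∃ F : Finset ℕ, F.Nonempty ∧ F.card = n + 1 ∧
      ∀ f ∈ F, ∀ g ∈ F, f ≠ g → R (dd f g) < c ^ 2 / 2 := by
    intro n
    induction n with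
    | zero =>
      refine ⟨{0}, by simp, by simp, ?_⟩
      intro f hf g hg hfg
      simp only [Finset.mem_singleton] at hf hg
      exact absurd (hf.trans hg.symm) hfg
    | succ n ih =>
      obtain ⟨F, hFne, hcard, hF⟩ := ih
      obtain ⟨j, hj1, hj2⟩ := hcon F hFne
      have hjF : j ∉ F := fun h => lt_irrefl _ (hj1 j h)
      refine ⟨insert j F, by simp, by rw [Finset.card_insert_of_notMem hjF, hcard], ?_⟩
      intro f hf g hg hfg
      rw [Finset.mem_insert] at hf hg
      rcases hf with rfl | hf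
      · rcases hg with rfl | hg
        · exact absurd rfl hfg
        · have h1 := hj1 g hg
          have h2 := hj2 g hg
          rwa [dd, Nat.sub_eq_zero_of_le h1.le, add_zero]
      · rcases hg with rfl | hg
        · have h1 := hj1 f hf
          have h2 := hj2 f hf
          rwa [dd, Nat.sub_eq_zero_of_le h1.le, zero_add]
        · exact hF f hf g hg hfg
  obtain ⟨n, hn⟩ := exists_nat_gt (2 / c ^ 2)
  obtain ⟨F, -, hcard, hF⟩ := hbig n
  have h1 := corr_limit_ineq hc hE' hψ.tendsto_atTop (fun i => hlim i) F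
  have h2 : ∑ f ∈ F, ∑ g ∈ F, R (dd f g) ≤ ∑ f ∈ F, (1 + (F.card : ℝ) * (c ^ 2 / 2)) := by
    apply Finset.sum_le_sum
    intro f hf
    rw [← Finset.add_sum_erase F _ hf]
    apply add_le_add (hR' _).2
    calc ∑ g ∈ F.erase f, R (dd f g) ≤ ∑ g ∈ F.erase f, (c ^ 2 / 2) := by
          apply Finset.sum_le_sum
          intro g hg
          rw [Finset.mem_erase] at hg
          exact (hF f hf g hg.2 (Ne.symm hg.1)).le
      _ = ((F.erase f).card : ℝ) * (c ^ 2 / 2) := by rw [Finset.sum_const, nsmul_eq_mul]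
      _ ≤ (F.card : ℝ) * (c ^ 2 / 2) := by
          gcongr
          exact Finset.erase_subset _ _
  rw [Finset.sum_const, nsmul_eq_mul] at h2
  have h3 : (2 : ℝ) / c ^ 2 < F.card := by
    rw [hcard]
    push_cast
    linarith
  rw [div_lt_iff₀ (by positivity)] at h3
  have h4 : (0 : ℝ) < F.card := by
    rw [hcard]
    positivity
  nlinarith [h1.trans h2]

end Pool.Agent.Work.MP_0403fc_an
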