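import Pool.Agent.Work.MP_0403fc_an.Density
import Pool.Agent.Work.MP_0403fc_an.Basic

namespace Pool.Agent.Work.MP_0403fc_an

open Filter Topology

variable {𝕜 : Type} [RCLike 𝕜]

/-- The number of times `n ∈ {1, …, N}` with `‖T^n x‖ ≤ K`. -/
noncomputable def cnt {X : Type*} [NormedAddCommGroup X] [NormedSpace 𝕜 X] (T : X →L[𝕜] X)
    (K : ℝ) (N : ℕ) (x : X) : ℕ :=
  {n ∈ Finset.Icc 1 N | ‖(T ^ n) x‖ ≤ K}.card

section general

variable {X : Type*} [NormedAddCommGroup X] [NormedSpace 𝕜 X]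

theorem isClosed_cnt (T : X →L[𝕜] X) (K : ℝ) (N k : ℕ) :
    IsClosed {x : X | N ≤ k * cnt T K N x} := by
  rw [← isOpen_compl_iff, isOpen_iff_mem_nhds]
  intro x hx
  simp only [Set.mem_compl_iff, Set.mem_ofPred_eq, not_le] at hx
  have h1 : ∀ᶠ y in 𝓝 x, ∀ n ∈ Finset.Icc 1 N, K < ‖(T ^ n) x‖ → K < ‖(T ^ n) y‖ := by
    rw [Filter.eventually_all_finset]
    intro n _
    by_cases h : K < ‖(T ^ n) x‖
    · have h2 : Tendsto (fun y => ‖(T ^ n) y‖) (𝓝 x) (𝓝 ‖(T ^ n) x‖) :=
        ((T ^ n).continuous.norm).tendsto x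
      filter_upwards [h2.eventually_const_lt h] with y hy _
      exact hy
    · exact Eventually.of_forall fun y h' => absurd h' h
  filter_upwards [h1] with y hy
  simp only [Set.mem_compl_iff, Set.mem_ofPred_eq, not_le]
  refine lt_of_le_of_lt (Nat.mul_le_mul_left k ?_) hx
  unfold cnt
  apply Finset.card_le_card
  intro n hn
  rw [Finset.mem_filter] at hn ⊢
  refine ⟨hn.1, ?_⟩
  by_contra h
  exact absurd (hy n hn.1 (not_le.1 h)) (not_lt.2 hn.2)

/-- The counting step: many scalar multiples give a uniform bound. -/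
theorem cnt_of_ball (T : X →L[𝕜] X) (k : ℕ) (hk : 0 < k) (y₀ x : X) (r : ℝ) (hr : 0 < r)
    (N : ℕ) (h : ∀ l : ℕ, l ≤ 2 * k → N ≤ k * cnt T 1 N (y₀ + ((r * l / (2 * k) : ℝ) : 𝕜) • x)) :
    N ≤ (2 * k) * cnt T (2 * (2 * k) / r) N x := by
  classical
  set L := 2 * k with hL
  have hLpos : (0 : ℝ) < L := by
    have : 0 < L := by omega
    exact_mod_cast this
  let y : ℕ → X := fun l => y₀ + ((r * l / (2 * k) : ℝ) : 𝕜) • x
  let G : ℕ → Finset ℕ := fun l => {n ∈ Finset.Icc 1 N | ‖(T ^ n) (y l)‖ ≤ 1}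
  let H : Finset ℕ := {n ∈ Finset.Icc 1 N | ‖(T ^ n) x‖ ≤ 2 * (2 * k) / r}
  have hcnt : cnt T (2 * (2 * k) / r) N x = H.card := rfl
  have hG : ∀ l ∈ Finset.Icc 1 L, N ≤ k * (G l).card := by
    intro l hl
    exact h l (Finset.mem_Icc.1 hl).2
  -- two different multiples
  have htwo : ∀ n ∈ Finset.Icc 1 N, ∀ l l' : ℕ, l < l' → n ∈ G l → n ∈ G l' → n ∈ H := by
    intro n hn l l' hll hl hl'
    rw [Finset.mem_filter] at hl hl' ⊢
    refine ⟨hn, ?_⟩
    have h1 : (T ^ n) (y l') - (T ^ n) (y l) = ((r * (l' - l : ℝ) / (2 * k) : ℝ) : 𝕜) •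
        (T ^ n) x := by
      rw [← map_sub, ← map_smul]
      congr 1
      simp only [y]
      rw [add_sub_add_left_eq_sub, ← sub_smul]
      congr 1
      push_cast
      ring
    have h2 : ‖(T ^ n) (y l') - (T ^ n) (y l)‖ ≤ 2 := by
      calc _ ≤ ‖(T ^ n) (y l')‖ + ‖(T ^ n) (y l)‖ := norm_sub_le _ _
        _ ≤ 1 + 1 := add_le_add hl'.2 hl.2
        _ = 2 := by norm_num
    rw [h1, norm_smul, RCLike.norm_ofReal] at h2
    have h3 : (1 : ℝ) ≤ l' - l := by
      have : l + 1 ≤ l' := hll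
      have : ((l + 1 : ℕ) : ℝ) ≤ l' := by exact_mod_cast this
      push_cast at this
      linarith
    have hkpos : (0 : ℝ) < k := by exact_mod_cast hk
    have h4 : r / (2 * k) ≤ |r * ((l' : ℝ) - l) / (2 * k)| := by
      rw [abs_of_nonneg (by positivity)]
      gcongr
      nlinarith
    rw [le_div_iff₀ hr]
    have h5 : r / (2 * k) * ‖(T ^ n) x‖ ≤ 2 :=
      le_trans (mul_le_mul_of_nonneg_right h4 (norm_nonneg _)) h2
    rw [div_mul_eq_mul_div, div_le_iff₀ (by positivity)] at h5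
    linarith
  -- counting
  have hcount : ∑ l ∈ Finset.Icc 1 L, (G l).card ≤ N + L * H.card := by
    have h1 : ∀ l ∈ Finset.Icc 1 L, (G l).card = ∑ n ∈ Finset.Icc 1 N, if n ∈ G l then 1 else 0 := by
      intro l _
      rw [Finset.sum_ite_mem, Finset.sum_const, smul_eq_mul, mul_one]
      congr 1
      symm
      apply Finset.inter_eq_right.2
      exact Finset.filter_subset _ _
    rw [Finset.sum_congr rfl h1, Finset.sum_comm]
    have h2 : ∀ n ∈ Finset.Icc 1 N, ∑ l ∈ Finset.Icc 1 L, (if n ∈ G l then 1 else 0) ≤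
        1 + L * (if n ∈ H then 1 else 0) := by
      intro n hn
      by_cases hnH : n ∈ H
      · rw [if_pos hnH]
        calc ∑ l ∈ Finset.Icc 1 L, (if n ∈ G l then 1 else 0) ≤ ∑ l ∈ Finset.Icc 1 L, 1 := by
              apply Finset.sum_le_sum
              intro l _
              split_ifs <;> omega
          _ = L := by simp
          _ ≤ _ := by omega
      · rw [if_neg hnH, mul_zero, add_zero, ← Finset.card_filter]
        rw [Finset.card_le_one]
        intro l hl l' hl'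
        rw [Finset.mem_filter] at hl hl'
        by_contra hne
        rcases lt_or_gt_of_ne hne with h3 | h3
        · exact hnH (htwo n hn l l' h3 hl.2 hl'.2)
        · exact hnH (htwo n hn l' l h3 hl'.2 hl.2)
    refine (Finset.sum_le_sum h2).trans ?_
    rw [Finset.sum_add_distrib, ← Finset.mul_sum, Finset.sum_ite_mem, Finset.sum_const,
      Finset.sum_const, smul_eq_mul, smul_eq_mul, mul_one, mul_one, Nat.card_Icc,
      Nat.add_sub_cancel]
    apply Nat.add_le_add_left
    apply Nat.mul_le_mul_left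
    apply Finset.card_le_card
    exact Finset.inter_subset_right
  have hlow : L * N ≤ k * ∑ l ∈ Finset.Icc 1 L, (G l).card := by
    rw [Finset.mul_sum]
    calc L * N = ∑ l ∈ Finset.Icc 1 L, N := by simp
      _ ≤ _ := Finset.sum_le_sum hG
  rw [hcnt]
  have h6 : L * N ≤ k * (N + L * H.card) := hlow.trans (Nat.mul_le_mul_left k hcount)
  have h7 : k * (2 * N) ≤ k * (N + L * H.card) := by
    calc k * (2 * N) = L * N := by rw [hL]; ring
      _ ≤ _ := h6
  have h8 := Nat.le_of_mul_le_mul_left h7 hk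
  omega

/-- Uniform version of frequent smallness on a closed subspace all of whose vectors are
frequently hypercyclic. -/
theorem baire_step [CompleteSpace X] (T : X →L[𝕜] X) (M : Submodule 𝕜 X)
    (hM : IsClosed (M : Set X))
    (hFH : ∀ x ∈ M, x ≠ 0 → IsFreqHypercyclicVector (fun y => T y) x) :
    ∃ k : ℕ, 0 < k ∧ ∃ K : ℝ, 0 ≤ K ∧ ∀ x ∈ M, ‖x‖ ≤ 1 → ∀ N, k ≤ N → N ≤ k * cnt T K N x := by
  classical
  have hcomp : CompleteSpace M := hM.completeSpace_coe
  let F : ℕ → Set M := fun k => {x : M | ∀ N, k + 1 ≤ N → N ≤ (k + 1) * cnt T 1 N (x : X)}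
  have hFclosed : ∀ k, IsClosed (F k) := by
    intro k
    have h1 : F k = ⋂ N : ℕ, ⋂ _ : k + 1 ≤ N,
        (fun x : M => (x : X)) ⁻¹' {x : X | N ≤ (k + 1) * cnt T 1 N x} := by
      ext x
      simp [F]
    rw [h1]
    refine isClosed_iInter fun N => isClosed_iInter fun _ => ?_
    exact (isClosed_cnt T 1 N (k + 1)).preimage continuous_subtype_val
  have hFuniv : ⋃ k, F k = Set.univ := by
    rw [Set.eq_univ_iff_forall]
    intro x
    rw [Set.mem_iUnion]
    by_cases hx : (x : X) = 0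
    · refine ⟨0, fun N _ => ?_⟩
      rw [zero_add, one_mul, hx]
      unfold cnt
      rw [Finset.filter_true_of_mem]
      · simp
      · intro n _
        rw [map_zero, norm_zero]
        exact zero_le_one
    · have h1 := hFH x x.2 hx (Metric.ball 0 1) Metric.isOpen_ball ⟨0, by simp⟩
      rw [lowerDensity_pos_iff] at h1
      obtain ⟨c, hc, N₀, h1⟩ := h1
      obtain ⟨k, hk⟩ := exists_nat_gt (max (1 / c) N₀)
      have hk1 : 1 / c < k := (le_max_left _ _).trans_lt hk
      have hk2 : N₀ < k := by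
        have := (le_max_right (1 / c) (N₀ : ℝ)).trans_lt hk
        exact_mod_cast this
      refine ⟨k, fun N hN => ?_⟩
      have h2 := h1 N (by omega)
      have h3 : ({n : ℕ | (fun y => T y)^[n] (x : X) ∈ Metric.ball (0 : X) 1} ∩
          Set.Icc 1 N).ncard ≤ cnt T 1 N (x : X) := by
        unfold cnt
        rw [← Set.ncard_coe_finset]
        apply Set.ncard_le_ncard _ (Finset.finite_toSet _)
        rintro n ⟨hn1, hn2⟩
        simp only [Finset.coe_filter, Finset.mem_Icc, Set.mem_ofPred_eq]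
        refine ⟨hn2, ?_⟩
        have h4 : (fun y => T y)^[n] (x : X) ∈ Metric.ball (0 : X) 1 := hn1
        have h5 : (fun y => T y)^[n] (x : X) = (T ^ n) (x : X) := by
          have h := FunLike.coe_pow_eq_iterate T n
          rw [h]
        rw [h5, Metric.mem_ball, dist_zero_right] at h4
        exact h4.le
      have h4 : (N : ℝ) ≤ ((k + 1) * cnt T 1 N (x : X) : ℕ) := by
        push_cast
        have h5 : c * N ≤ cnt T 1 N (x : X) := h2.trans (by exact_mod_cast h3)
        have h6 : (N : ℝ) ≤ (1 / c) * cnt T 1 N (x : X) := by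
          rw [div_mul_eq_mul_div, one_mul, le_div_iff₀ hc]
          linarith
        refine h6.trans ?_
        gcongr
        linarith
      exact_mod_cast h4
  obtain ⟨k, hk⟩ := nonempty_interior_of_iUnion_of_closed hFclosed hFuniv
  obtain ⟨y₀, hy₀⟩ := hk
  rw [mem_interior_iff_mem_nhds, Metric.mem_nhds_iff] at hy₀
  obtain ⟨ε, hε, hball⟩ := hy₀
  refine ⟨2 * (k + 1), by omega, 2 * (2 * ((k + 1 : ℕ) : ℝ)) / (ε / 2), by positivity, ?_⟩
  intro x hxM hx N hN
  apply cnt_of_ball T (k + 1) (by omega) (y₀ : X) x (ε / 2) (by positivity) N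
  intro l hl
  let z : M := ⟨((ε / 2 * l / (2 * ((k + 1 : ℕ) : ℝ)) : ℝ) : 𝕜) • x, M.smul_mem _ hxM⟩
  have hz : y₀ + z ∈ F k := by
    apply hball
    rw [Metric.mem_ball, dist_eq_norm, add_sub_cancel_left]
    change ‖((ε / 2 * l / (2 * ((k + 1 : ℕ) : ℝ)) : ℝ) : 𝕜) • x‖ < ε
    rw [norm_smul, RCLike.norm_ofReal, abs_of_nonneg (by positivity)]
    have h1 : (l : ℝ) ≤ 2 * ((k + 1 : ℕ) : ℝ) := by exact_mod_cast hl
    have h2 : ε / 2 * l / (2 * ((k + 1 : ℕ) : ℝ)) ≤ ε / 2 := by
      rw [div_le_iff₀ (by positivity)]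
      gcongr
    calc ε / 2 * l / (2 * ((k + 1 : ℕ) : ℝ)) * ‖x‖ ≤ ε / 2 * 1 :=
          mul_le_mul h2 hx (norm_nonneg _) (by positivity)
      _ < ε := by linarith
  exact hz N (by omega)

end general

end Pool.Agent.Work.MP_0403fc_an
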