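import Pool.Agent.Work.MP_0403fc_an.Basic

namespace Pool.Agent.Work.MP_0403fc_an

open Filter Topology

variable {𝕜 : Type} [RCLike 𝕜] {p : ENNReal}

theorem energy_comp (q : ℝ) (σ : ℕ → ℕ) (g a : ℕ → 𝕜) :
    energy q (fun r => a (σ r) * g r) =
      ∑' k, ENNReal.ofReal (‖a k‖ ^ q) *
        ∑' r, (if σ r = k then ENNReal.ofReal (‖g r‖ ^ q) else 0) := by
  simp_rw [← ENNReal.tsum_mul_left]
  rw [ENNReal.tsum_comm, energy]
  refine tsum_congr fun r => ?_
  rw [tsum_eq_single (σ r)]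
  · rw [if_pos rfl, norm_mul, Real.mul_rpow (norm_nonneg _) (norm_nonneg _),
      ENNReal.ofReal_mul (by positivity)]
  · intro k hk
    rw [if_neg (Ne.symm hk), mul_zero]

theorem energy_comp_le (q : ℝ) (σ : ℕ → ℕ) (g a : ℕ → 𝕜) (C : ENNReal)
    (h : ∀ k, ∑' r, (if σ r = k then ENNReal.ofReal (‖g r‖ ^ q) else 0) ≤ C) :
    energy q (fun r => a (σ r) * g r) ≤ energy q a * C := by
  rw [energy_comp, energy, ← ENNReal.tsum_mul_right]
  exact ENNReal.tsum_le_tsum fun k => by gcongr; exact h k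

theorem exists_compMul [Fact (1 ≤ p)] (hp : p ≠ ⊤) (σ : ℕ → ℕ) (g : ℕ → 𝕜) (C : ℝ) (hC : 0 ≤ C)
    (h : ∀ k, ∑' r, (if σ r = k then ENNReal.ofReal (‖g r‖ ^ p.toReal) else 0) ≤
      ENNReal.ofReal (C ^ p.toReal)) :
    ∃ V : SeqSpace 𝕜 p →L[𝕜] SeqSpace 𝕜 p, (∀ a r, V a r = a (σ r) * g r) ∧
      ∀ a, ‖V a‖ ≤ C * ‖a‖ := by
  have hq := toReal_pos' hp
  have hE : ∀ a : SeqSpace 𝕜 p, energy p.toReal (fun r => a (σ r) * g r) ≤
      ENNReal.ofReal ((C * ‖a‖) ^ p.toReal) := by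
    intro a
    refine (energy_comp_le p.toReal σ g a _ h).trans ?_
    rw [energy_eq hp, ← ENNReal.ofReal_mul (by positivity),
      Real.mul_rpow hC (norm_nonneg _), mul_comm]
  have hfin : ∀ a : SeqSpace 𝕜 p, energy p.toReal (fun r => a (σ r) * g r) ≠ ⊤ := fun a =>
    ne_top_of_le_ne_top ENNReal.ofReal_ne_top (hE a)
  let L : SeqSpace 𝕜 p →ₗ[𝕜] SeqSpace 𝕜 p :=
    { toFun := fun a => mkSeq hp (fun r => a (σ r) * g r) (hfin a)
      map_add' := by
        intro a b
        apply lp.ext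
        funext r
        change (a + b : SeqSpace 𝕜 p) (σ r) * g r = a (σ r) * g r + b (σ r) * g r
        rw [lp.coeFn_add, Pi.add_apply, add_mul]
      map_smul' := by
        intro c a
        apply lp.ext
        funext r
        change (c • a : SeqSpace 𝕜 p) (σ r) * g r = c * (a (σ r) * g r)
        rw [lp.coeFn_smul, Pi.smul_apply, smul_eq_mul, mul_assoc] }
  have hL : ∀ a, ‖L a‖ ≤ C * ‖a‖ := fun a =>
    norm_le_of_energy hp _ (by positivity) (hE a)
  exact ⟨L.mkContinuous C hL, fun a r => rfl, hL⟩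

/-- The weighted backward shift exists for bounded weights. -/
theorem exists_weightedShift [Fact (1 ≤ p)] (hp : p ≠ ⊤) (w : ℕ → 𝕜) (C : ℝ)
    (hC : ∀ n, ‖w n‖ ≤ C) :
    ∃ T : SeqSpace 𝕜 p →L[𝕜] SeqSpace 𝕜 p, IsWeightedShift w (fun x => T x) := by
  have hC0 : 0 ≤ C := (norm_nonneg _).trans (hC 0)
  have hq := toReal_pos' hp
  obtain ⟨V, hV, -⟩ := exists_compMul (p := p) hp (fun r => r + 1) (fun r => w (r + 1)) C hC0 (by
    intro k
    rcases Nat.eq_zero_or_pos k with hk | hk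
    · subst hk
      simp
    · rw [tsum_eq_single (k - 1)]
      · split_ifs
        · exact ENNReal.ofReal_le_ofReal (Real.rpow_le_rpow (norm_nonneg _) (hC _) hq.le)
        · exact zero_le
      · intro r hr
        rw [if_neg]
        omega)
  exact ⟨V, fun x i => by rw [mul_comm]; exact hV x i⟩

theorem separable_seqSpace [Fact (1 ≤ p)] (hp : p ≠ ⊤) :
    TopologicalSpace.SeparableSpace (SeqSpace 𝕜 p) := by
  rw [← TopologicalSpace.isSeparable_univ_iff]
  have h1 : TopologicalSpace.IsSeparable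
      (Set.range fun i : ℕ => (lp.single p i (1 : 𝕜) : SeqSpace 𝕜 p)) :=
    (Set.countable_range _).isSeparable
  have h2 := (h1.span (R := 𝕜)).closure
  convert h2
  symm
  rw [Set.eq_univ_iff_forall]
  intro x
  apply mem_closure_of_tendsto (lp.hasSum_single hp x).tendsto_sum_nat
  filter_upwards with n
  apply Submodule.sum_mem
  intro i _
  have h3 : (lp.single p i (x i) : SeqSpace 𝕜 p) = x i • (lp.single p i (1 : 𝕜)) := by
    rw [← lp.single_smul, smul_eq_mul, mul_one]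
  rw [h3]
  exact Submodule.smul_mem _ _ (Submodule.subset_span ⟨i, rfl⟩)

theorem not_finiteDimensional_seqSpace [Fact (1 ≤ p)] :
    ¬ FiniteDimensional 𝕜 (SeqSpace 𝕜 p) := by
  intro h
  have hli : LinearIndependent 𝕜 (fun i : ℕ => (lp.single p i (1 : 𝕜) : SeqSpace 𝕜 p)) := by
    rw [linearIndependent_iff']
    intro s c hsum i hi
    have h1 := congrArg (fun x : SeqSpace 𝕜 p => (x : ℕ → 𝕜) i) hsum
    simp only [lp.coeFn_sum, Finset.sum_apply, lp.coeFn_smul, Pi.smul_apply, lp.single_apply,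
      lp.coeFn_zero, Pi.zero_apply] at h1
    rw [Finset.sum_eq_single i] at h1
    · simpa using h1
    · intro j _ hj
      simp [Ne.symm hj]
    · intro h2
      exact absurd hi h2
  have h5 : Finite ℕ := hli.finite_of_isNoetherian
  exact not_finite ℕ

end Pool.Agent.Work.MP_0403fc_an
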