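import Pool.Agent.Work.MP_0403fc_an.Ops
import Pool.Agent.Work.MP_0403fc_an.Events

namespace Pool.Agent.Work.MP_0403fc_an

open Filter Topology

variable {𝕜 : Type} [RCLike 𝕜] {p : ENNReal}

theorem exists_patterns [Fact (1 ≤ p)] (hp : p ≠ ⊤) (w : ℕ → 𝕜)
    (B : ℕ → ENNReal) (hB : ∑' k, B k ≠ ⊤) (c : ENNReal) (hc : c ≠ 0) :
    ∃ (Y : ℕ → SeqSpace 𝕜 p) (κ : ℕ → ℕ), (∀ ρ t, ρ ≤ t → Y ρ t = 0) ∧
      (∑' ρ, (∑' t, ENNReal.ofReal (‖Y ρ t‖ ^ p.toReal * bb w p.toReal t)) *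
        ∑' k, B (k + ρ) ≤ c) ∧
      ∀ (y : SeqSpace 𝕜 p) (ε : ℝ), 0 < ε → ∀ k ρ₀, ∃ ρ, ρ₀ ≤ ρ ∧ κ ρ = k ∧ ‖Y ρ - y‖ < ε := by
  classical
  have hq := toReal_pos' hp
  have : TopologicalSpace.SeparableSpace (SeqSpace 𝕜 p) := separable_seqSpace hp
  obtain ⟨x, hx⟩ := TopologicalSpace.exists_dense_seq (SeqSpace 𝕜 p)
  -- the list of patterns
  let y : ℕ → SeqSpace 𝕜 p := fun j => trunc (j.unpair.2.unpair.2) (x (j.unpair.2.unpair.1))
  let κ₀ : ℕ → ℕ := fun j => j.unpair.1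
  have hy0 : ∀ j t, j ≤ t → y j t = 0 := by
    intro j t hjt
    have h1 : j.unpair.2.unpair.2 ≤ t :=
      ((Nat.unpair_right_le _).trans (Nat.unpair_right_le _)).trans hjt
    simp only [y, trunc_apply]
    rw [if_neg (by omega)]
  let Dy : ℕ → ENNReal := fun j => ∑' t, ENNReal.ofReal (‖y j t‖ ^ p.toReal * bb w p.toReal t)
  have hDy : ∀ j, Dy j ≠ ⊤ := by
    intro j
    have h1 : Dy j = ∑ t ∈ Finset.range j,
        ENNReal.ofReal (‖y j t‖ ^ p.toReal * bb w p.toReal t) := by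
      apply tsum_eq_sum
      intro t ht
      rw [Finset.mem_range, not_lt] at ht
      rw [hy0 j t ht, norm_zero, Real.zero_rpow hq.ne', zero_mul, ENNReal.ofReal_zero]
    rw [h1]
    exact ENNReal.sum_ne_top.2 fun t _ => ENNReal.ofReal_ne_top
  obtain ⟨ε', hε'pos, hε'sum⟩ := ENNReal.exists_pos_sum_of_countable hc ℕ
  have hτ : Tendsto (fun ρ => ∑' k, B (k + ρ)) atTop (𝓝 0) :=
    ENNReal.tendsto_sum_nat_add B hB
  have hev : ∀ j : ℕ, ∀ᶠ ρ in atTop, j ≤ ρ ∧ Dy j * ∑' k, B (k + ρ) ≤ ε' j := by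
    intro j
    have h1 : Tendsto (fun ρ => Dy j * ∑' k, B (k + ρ)) atTop (𝓝 (Dy j * 0)) :=
      ENNReal.Tendsto.const_mul hτ (Or.inr (hDy j))
    rw [mul_zero] at h1
    have h2 : ∀ᶠ ρ in atTop, Dy j * ∑' k, B (k + ρ) < ε' j :=
      h1.eventually_lt_const (by exact_mod_cast hε'pos j)
    filter_upwards [h2, eventually_ge_atTop j] with ρ h3 h4
    exact ⟨h4, h3.le⟩
  obtain ⟨φ, hφ, hφ2⟩ := extraction_forall_of_eventually hev
  let Y : ℕ → SeqSpace 𝕜 p := Function.extend φ y (fun _ => 0)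
  let κ : ℕ → ℕ := Function.extend φ κ₀ (fun _ => 0)
  have hYφ : ∀ j, Y (φ j) = y j := fun j => hφ.injective.extend_apply _ _ _
  have hκφ : ∀ j, κ (φ j) = κ₀ j := fun j => hφ.injective.extend_apply _ _ _
  have hYn : ∀ ρ, ρ ∉ Set.range φ → Y ρ = 0 := by
    intro ρ hρ
    exact Function.extend_apply' _ _ _ (by
      rintro ⟨j, hj⟩
      exact hρ ⟨j, hj⟩)
  refine ⟨Y, κ, ?_, ?_, ?_⟩
  · intro ρ t hρt
    by_cases h : ρ ∈ Set.range φ
    · obtain ⟨j, rfl⟩ := h
      rw [hYφ]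
      exact hy0 j t ((hφ2 j).1.trans hρt)
    · rw [hYn ρ h]
      rfl
  · have h1 : ∑' j, (∑' t, ENNReal.ofReal (‖Y (φ j) t‖ ^ p.toReal * bb w p.toReal t)) *
        ∑' k, B (k + φ j) = ∑' ρ, (∑' t, ENNReal.ofReal (‖Y ρ t‖ ^ p.toReal * bb w p.toReal t)) *
        ∑' k, B (k + ρ) := by
      apply hφ.injective.tsum_eq (f := fun ρ =>
        (∑' t, ENNReal.ofReal (‖Y ρ t‖ ^ p.toReal * bb w p.toReal t)) * ∑' k, B (k + ρ))
      intro ρ hρ
      by_contra h
      apply hρ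
      simp only [hYn ρ h]
      simp [Real.zero_rpow hq.ne']
    rw [← h1]
    refine le_trans (ENNReal.tsum_le_tsum fun j => ?_) hε'sum.le
    rw [hYφ]
    exact (hφ2 j).2
  · intro z ε hε k ρ₀
    obtain ⟨i, hi⟩ := hx.exists_dist_lt z (half_pos hε)
    have h1 := (trunc_tendsto hp (x i)).eventually (Metric.ball_mem_nhds (x i) (half_pos hε))
    obtain ⟨L, hL1, hL2⟩ := (h1.and (eventually_ge_atTop ρ₀)).exists
    let j := Nat.pair k (Nat.pair i L)
    have hj1 : y j = trunc L (x i) := by simp [y, j]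
    have hj2 : κ₀ j = k := by simp [κ₀, j]
    have hj3 : L ≤ j := (Nat.right_le_pair i L).trans (Nat.right_le_pair k _)
    refine ⟨φ j, ?_, ?_, ?_⟩
    · exact hL2.trans (hj3.trans hφ.le_apply)
    · rw [hκφ, hj2]
    · rw [hYφ, hj1, ← dist_eq_norm]
      calc dist (trunc L (x i)) z ≤ dist (trunc L (x i)) (x i) + dist (x i) z :=
            dist_triangle _ _ _
        _ < ε / 2 + ε / 2 := by
            apply add_lt_add hL1
            rw [dist_comm]
            exact hi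
        _ = ε := by ring

/-- Tannery's theorem for the tails. -/
theorem tail_tendsto (D : ℕ → ENNReal) (B : ℕ → ENNReal) (hB : ∑' k, B k ≠ ⊤)
    (hD : ∑' ρ, D ρ * ∑' k, B (k + ρ) ≠ ⊤) (hD' : ∀ ρ, D ρ ≠ ⊤) :
    Tendsto (fun L => ∑' ρ, D ρ * ∑' k, B (k + (L + ρ))) atTop (𝓝 0) := by
  have hτ : Tendsto (fun ρ => ∑' k, B (k + ρ)) atTop (𝓝 0) :=
    ENNReal.tendsto_sum_nat_add B hB
  have hmono : ∀ L ρ, ∑' k, B (k + (L + ρ)) ≤ ∑' k, B (k + ρ) := by
    intro L ρ
    have := ENNReal.tsum_comp_le_tsum_of_injective (f := fun k : ℕ => k + L)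
      (add_left_injective L) (fun k => B (k + ρ))
    refine le_trans (le_of_eq ?_) this
    refine tsum_congr fun k => ?_
    congr 1
    omega
  have h1 := MeasureTheory.tendsto_lintegral_of_dominated_convergence
    (μ := MeasureTheory.Measure.count) (F := fun L ρ => D ρ * ∑' k, B (k + (L + ρ)))
    (f := fun _ : ℕ => (0 : ENNReal)) (fun ρ => D ρ * ∑' k, B (k + ρ))
    (fun L => measurable_of_countable _)
    (fun L => Eventually.of_forall fun ρ => by
      exact mul_le_mul' le_rfl (hmono L ρ))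
    (by rw [MeasureTheory.lintegral_count]; exact hD)
    (Eventually.of_forall fun ρ => by
      have h2 : Tendsto (fun L => ∑' k, B (k + (L + ρ))) atTop (𝓝 0) :=
        hτ.comp (tendsto_add_atTop_nat ρ)
      have h3 := ENNReal.Tendsto.const_mul (a := D ρ) h2 (Or.inr (hD' ρ))
      rw [mul_zero] at h3
      exact h3)
  simp_rw [MeasureTheory.lintegral_count] at h1
  simpa using h1

/-- Disjoint flat blocks extracted from condition (b). -/
theorem exists_blocks [Fact (1 ≤ p)] (hp : p ≠ ⊤) {w : ℕ → 𝕜} (hw : ∀ n, w n ≠ 0)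
    {A : Set ℕ} {K : ℝ}
    (h : ∀ N : ℕ, ∃ (F : Finset ℕ) (ζ : ℕ → ℝ),
    (∀ m ∈ F, N < m) ∧ (∀ m ∈ F, 0 ≤ ζ m) ∧ ∑ m ∈ F, ζ m = 1 ∧
      ∀ n ∈ A, ∑ m ∈ F, ζ m * blockWeight w n m ^ p.toReal ≤ K) :
    ∃ z : ℕ → ℕ → 𝕜, (∀ r k k', z k r ≠ 0 → z k' r ≠ 0 → k = k') ∧
      (∀ k, ∑' r, ENNReal.ofReal (‖z k r‖ ^ p.toReal) = 1) ∧
      (∀ k, ∃ L, ∀ r, L ≤ r → z k r = 0) ∧
      ∀ k, ∀ n ∈ A, ∑' i, ENNReal.ofReal
        (bb w p.toReal (i + n) / bb w p.toReal i * ‖z k (i + n)‖ ^ p.toReal) ≤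
          ENNReal.ofReal K := by
  classical
  have hq := toReal_pos' hp
  choose F ζ hF hζ hsum hK using h
  let Nq : ℕ → ℕ := fun k => Nat.rec 0 (fun _ N => (F N).sup id) k
  have hN : ∀ k, Nq (k + 1) = (F (Nq k)).sup id := fun k => rfl
  have hne : ∀ N, (F N).Nonempty := by
    intro N
    by_contra h
    rw [Finset.not_nonempty_iff_eq_empty] at h
    have := hsum N
    rw [h, Finset.sum_empty] at this
    exact zero_ne_one this
  have hle : ∀ k, ∀ m ∈ F (Nq k), m ≤ Nq (k + 1) := by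
    intro k m hm
    rw [hN]
    exact Finset.le_sup (f := id) hm
  have hmono : StrictMono Nq := by
    apply strictMono_nat_of_lt_succ
    intro k
    obtain ⟨m, hm⟩ := hne (Nq k)
    exact (hF _ m hm).trans_le (hle k m hm)
  let z : ℕ → ℕ → 𝕜 := fun k r =>
    if r ∈ F (Nq k) then (((ζ (Nq k) r) ^ (1 / p.toReal) : ℝ) : 𝕜) else 0
  have hz : ∀ k r, ‖z k r‖ ^ p.toReal = if r ∈ F (Nq k) then ζ (Nq k) r else 0 := by
    intro k r
    by_cases hr : r ∈ F (Nq k)
    · simp only [z, if_pos hr]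
      have h0 := hζ (Nq k) r hr
      rw [RCLike.norm_ofReal, abs_of_nonneg (by positivity), ← Real.rpow_mul h0,
        one_div_mul_cancel hq.ne', Real.rpow_one]
    · simp only [z, if_neg hr]
      rw [norm_zero, Real.zero_rpow hq.ne']
  have hzmem : ∀ k r, z k r ≠ 0 → r ∈ F (Nq k) := by
    intro k r h
    by_contra hr
    exact h (by simp only [z, if_neg hr])
  refine ⟨z, ?_, ?_, ?_, ?_⟩
  · have key : ∀ r k k', z k r ≠ 0 → z k' r ≠ 0 → ¬ k < k' := by
      intro r k k' h1 h2 hlt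
      have h3 := hle k r (hzmem k r h1)
      have h4 := hF _ r (hzmem k' r h2)
      have h5 := hmono.monotone (show k + 1 ≤ k' from hlt)
      omega
    intro r k k' h1 h2
    exact le_antisymm (not_lt.1 (key r k' k h2 h1)) (not_lt.1 (key r k k' h1 h2))
  · intro k
    rw [tsum_eq_sum (s := F (Nq k))]
    · rw [← ENNReal.ofReal_sum_of_nonneg]
      · rw [Finset.sum_congr rfl (g := fun r => ζ (Nq k) r), hsum, ENNReal.ofReal_one]
        intro r hr
        rw [hz, if_pos hr]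
      · intro r _
        positivity
    · intro r hr
      rw [hz, if_neg hr, ENNReal.ofReal_zero]
  · intro k
    refine ⟨Nq (k + 1) + 1, fun r hr => ?_⟩
    by_contra h
    have := hle k r (hzmem k r h)
    omega
  · intro k n hn
    have h1 : ∀ m, 0 ≤ blockWeight w n m := by
      intro m
      unfold blockWeight
      split_ifs
      · exact Finset.prod_nonneg fun i _ => norm_nonneg _
      · exact le_rfl
    have h2 := ENNReal.tsum_comp_le_tsum_of_injective (f := fun i : ℕ => i + n)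
      (add_left_injective n) (fun m => ENNReal.ofReal (‖z k m‖ ^ p.toReal *
        blockWeight w n m ^ p.toReal))
    calc ∑' i, ENNReal.ofReal (bb w p.toReal (i + n) / bb w p.toReal i *
            ‖z k (i + n)‖ ^ p.toReal)
        = ∑' i, ENNReal.ofReal (‖z k (i + n)‖ ^ p.toReal *
            blockWeight w n (i + n) ^ p.toReal) := by
          refine tsum_congr fun i => ?_
          rw [blockWeight_eq hw (by omega), Nat.add_sub_cancel,
            Real.div_rpow (norm_nonneg _) (norm_nonneg _), mul_comm]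
          rfl
      _ ≤ ∑' m, ENNReal.ofReal (‖z k m‖ ^ p.toReal * blockWeight w n m ^ p.toReal) := h2
      _ = ENNReal.ofReal (∑ m ∈ F (Nq k), ζ (Nq k) m * blockWeight w n m ^ p.toReal) := by
          rw [tsum_eq_sum (s := F (Nq k)), ENNReal.ofReal_sum_of_nonneg]
          · refine Finset.sum_congr rfl fun m hm => ?_
            rw [hz, if_pos hm]
          · intro m hm
            exact mul_nonneg (hζ _ m hm) (Real.rpow_nonneg (h1 m) _)
          · intro m hm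
            rw [hz, if_neg hm, zero_mul, ENNReal.ofReal_zero]
      _ ≤ ENNReal.ofReal K := ENNReal.ofReal_le_ofReal (hK _ n hn)

end Pool.Agent.Work.MP_0403fc_an
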