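import Pool.Agent.Work.MP_0403fc_an.Patterns

namespace Pool.Agent.Work.MP_0403fc_an

open Filter Topology

variable {𝕜 : Type} [RCLike 𝕜] {p : ENNReal}

theorem energy_eq_weighted {w : ℕ → 𝕜} (hw : ∀ n, w n ≠ 0) (q : ℝ) (f : ℕ → 𝕜) :
    energy q f = ∑' i, ENNReal.ofReal (1 / bb w q i) *
      ENNReal.ofReal (‖f i‖ ^ q * bb w q i) := by
  rw [energy]
  refine tsum_congr fun i => ?_
  have h1 := bb_pos hw q i
  rw [← ENNReal.ofReal_mul (by positivity)]
  congr 1
  field_simp

/-- Powers of the shift tend to zero along `A` on the flat part. -/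
theorem flat_tendsto [Fact (1 ≤ p)] (hp : p ≠ ⊤) {w : ℕ → 𝕜} (hw : ∀ n, w n ≠ 0)
    {T : SeqSpace 𝕜 p →L[𝕜] SeqSpace 𝕜 p} (hT : IsWeightedShift w (fun x => T x))
    {A : Set ℕ} {K : ℝ} (z : ℕ → ℕ → 𝕜) (σ : ℕ → ℕ) (g : ℕ → 𝕜)
    (hg : ∀ k r, (if σ r = k then g r else 0) = z k r)
    (hL : ∀ k, ∃ L, ∀ r, L ≤ r → z k r = 0)
    (hK : ∀ k, ∀ n ∈ A, ∑' i, ENNReal.ofReal
        (bb w p.toReal (i + n) / bb w p.toReal i * ‖z k (i + n)‖ ^ p.toReal) ≤
          ENNReal.ofReal K)
    (Z : SeqSpace 𝕜 p →L[𝕜] SeqSpace 𝕜 p) (hZ : ∀ a r, Z a r = a (σ r) * g r)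
    (a : SeqSpace 𝕜 p) (ε : ℝ) (hε : 0 < ε) :
    ∃ n₀, ∀ n ∈ A, n₀ ≤ n → ‖(T ^ n) (Z a)‖ ≤ ε := by
  classical
  have hq := toReal_pos' hp
  choose L hL using hL
  -- the energy identity
  have h1 : ∀ n, energy p.toReal ((T ^ n) (Z a) : ℕ → 𝕜) =
      ∑' k, ENNReal.ofReal (‖a k‖ ^ p.toReal) * ∑' i, ENNReal.ofReal
        (bb w p.toReal (i + n) / bb w p.toReal i * ‖z k (i + n)‖ ^ p.toReal) := by
    intro n
    have h2 : ((T ^ n) (Z a) : ℕ → 𝕜) =
        fun i => a (σ (i + n)) * (beta w (i + n) / beta w i * g (i + n)) := by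
      funext i
      rw [pow_apply hw hT, hZ]
      ring
    rw [h2, energy_comp]
    refine tsum_congr fun k => ?_
    congr 1
    refine tsum_congr fun i => ?_
    rw [← hg k (i + n)]
    by_cases hk : σ (i + n) = k
    · rw [if_pos hk, if_pos hk, norm_mul, norm_div,
        Real.mul_rpow (by positivity) (norm_nonneg _),
        Real.div_rpow (norm_nonneg _) (norm_nonneg _)]
      rfl
    · rw [if_neg hk, if_neg hk, norm_zero, Real.zero_rpow hq.ne', mul_zero, ENNReal.ofReal_zero]
  -- domination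
  have h3 : ∀ n ∈ A, energy p.toReal ((T ^ n) (Z a) : ℕ → 𝕜) ≤
      ∑' k, ENNReal.ofReal (‖a k‖ ^ p.toReal) * (if n < L k then ENNReal.ofReal K else 0) := by
    intro n hn
    rw [h1]
    refine ENNReal.tsum_le_tsum fun k => ?_
    refine mul_le_mul' le_rfl ?_
    by_cases hk : n < L k
    · rw [if_pos hk]
      exact hK k n hn
    · rw [if_neg hk]
      refine le_of_eq ?_
      rw [ENNReal.tsum_eq_zero]
      intro i
      rw [hL k (i + n) (by omega), norm_zero, Real.zero_rpow hq.ne', mul_zero,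
        ENNReal.ofReal_zero]
  have h4 : Tendsto (fun n => ∑' k, ENNReal.ofReal (‖a k‖ ^ p.toReal) *
      (if n < L k then ENNReal.ofReal K else 0)) atTop (𝓝 0) := by
    have h5 := MeasureTheory.tendsto_lintegral_of_dominated_convergence
      (μ := MeasureTheory.Measure.count)
      (F := fun (n : ℕ) (k : ℕ) => ENNReal.ofReal (‖a k‖ ^ p.toReal) *
        (if n < L k then ENNReal.ofReal K else 0))
      (f := fun _ : ℕ => (0 : ENNReal))
      (fun k => ENNReal.ofReal (‖a k‖ ^ p.toReal) * ENNReal.ofReal K)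
      (fun n => measurable_of_countable _)
      (fun n => Eventually.of_forall fun k => by
        refine mul_le_mul' le_rfl ?_
        split_ifs
        · exact le_rfl
        · exact zero_le)
      (by
        rw [MeasureTheory.lintegral_count, ENNReal.tsum_mul_right]
        have h6 := energy_eq hp a
        rw [energy] at h6
        rw [h6]
        exact ENNReal.mul_ne_top ENNReal.ofReal_ne_top ENNReal.ofReal_ne_top)
      (Eventually.of_forall fun k => by
        apply tendsto_const_nhds.congr'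
        filter_upwards [eventually_ge_atTop (L k)] with n hn
        rw [if_neg (by omega), mul_zero])
    simp_rw [MeasureTheory.lintegral_count] at h5
    simpa using h5
  have h7 : ∀ᶠ n in atTop, ∑' k, ENNReal.ofReal (‖a k‖ ^ p.toReal) *
      (if n < L k then ENNReal.ofReal K else 0) ≤ ENNReal.ofReal (ε ^ p.toReal) :=
    (h4.eventually_lt_const (ENNReal.ofReal_pos.2 (by positivity))).mono fun n hn => hn.le
  obtain ⟨n₀, hn₀⟩ := eventually_atTop.1 h7
  refine ⟨n₀, fun n hnA hn => norm_le_of_energy hp _ hε.le ((h3 n hnA).trans (hn₀ n hn))⟩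

theorem sufficiency [Fact (1 ≤ p)] (hp : p ≠ ⊤) {w : ℕ → 𝕜} (hw : ∀ n, w n ≠ 0)
    {T : SeqSpace 𝕜 p →L[𝕜] SeqSpace 𝕜 p} (hT : IsWeightedShift w (fun x => T x))
    (ha : WeightSummable w p.toReal) (hb : FlatBlocks w p.toReal) :
    HasFreqHypercyclicSubspace T := by
  classical
  have hq := toReal_pos' hp
  obtain ⟨A, hA, K, hblocks⟩ := hb
  obtain ⟨m, hm, hmA, hmlev, hmsep, hmdens⟩ := exists_events hA
  obtain ⟨z, hz1, hz2, hz3, hz4⟩ := exists_blocks hp hw hblocks
  let B : ℕ → ENNReal := fun i => ENNReal.ofReal (1 / bb w p.toReal i)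
  have hB : ∑' k, B k ≠ ⊤ := by
    have h1 : Summable fun i => 1 / bb w p.toReal i := by
      refine ha.congr fun i => ?_
      rw [bb, norm_beta]
    rw [← ENNReal.ofReal_tsum_of_nonneg (fun i => (by
      have := bb_pos hw p.toReal i
      positivity)) h1]
    exact ENNReal.ofReal_ne_top
  obtain ⟨Y, κ, hY1, hY2, hY3⟩ := exists_patterns hp w B hB
    (ENNReal.ofReal ((1 / 4 : ℝ) ^ p.toReal)) (ENNReal.ofReal_pos.2 (by positivity)).ne'
  let D : ℕ → ℕ → ENNReal := fun ρ t => ENNReal.ofReal (‖Y ρ t‖ ^ p.toReal * bb w p.toReal t)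
  have hDfin : ∀ ρ, ∑' t, D ρ t ≠ ⊤ := by
    intro ρ
    rw [tsum_eq_sum (s := Finset.range ρ)]
    · exact ENNReal.sum_ne_top.2 fun t _ => ENNReal.ofReal_ne_top
    · intro t ht
      rw [Finset.mem_range, not_lt] at ht
      simp only [D]
      rw [hY1 ρ t ht, norm_zero, Real.zero_rpow hq.ne', zero_mul, ENNReal.ofReal_zero]
  have hY0 : ∀ t, Y 0 t = 0 := fun t => hY1 0 t (Nat.zero_le t)
  -- the last event before time `r`
  let U : ℕ → ℕ := fun r => Nat.findGreatest (fun u => m u ≤ r) r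
  have hU1 : ∀ u r, m u ≤ r → u ≤ U r := fun u r h =>
    Nat.le_findGreatest (hm.le_apply.trans h) h
  have hU2 : ∀ r, U r = 0 ∨ m (U r) ≤ r := by
    intro r
    rcases Nat.eq_zero_or_pos (U r) with h | h
    · exact Or.inl h
    · exact Or.inr (Nat.findGreatest_of_ne_zero (P := fun u => m u ≤ r) rfl h.ne')
  have hU3 : ∀ u r, m u ≤ r → m (U r) ≤ r := by
    intro u r h
    rcases hU2 r with h1 | h1
    · rw [h1]
      exact (hm.monotone (Nat.zero_le u)).trans h
    · exact h1
  let v : ℕ → 𝕜 := fun r => beta w (r - m (U r)) * Y (lev (U r)) (r - m (U r)) / beta w r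
  have hv : ∀ r, ‖v r‖ ^ p.toReal * bb w p.toReal r =
      ‖Y (lev (U r)) (r - m (U r))‖ ^ p.toReal * bb w p.toReal (r - m (U r)) := by
    intro r
    have h1 := bb_pos hw p.toReal r
    simp only [v]
    rw [norm_div, norm_mul, Real.div_rpow (by positivity) (by positivity),
      Real.mul_rpow (by positivity) (by positivity)]
    change bb w p.toReal (r - m (U r)) * _ / bb w p.toReal r * bb w p.toReal r = _
    field_simp
  have hvE : energy p.toReal v ≤ ENNReal.ofReal ((1 / 4 : ℝ) ^ p.toReal) := by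
    rw [energy_eq_weighted hw]
    refine le_trans (event_sum_le m hm Set.univ 0 0 (fun u _ => by simpa using hmlev u) B D
      (fun i => ENNReal.ofReal (‖v i‖ ^ p.toReal * bb w p.toReal i)) ?_) ?_
    · intro i
      rcases hU2 i with h1 | h1
      · left
        rw [hv i, h1, lev_zero, hY0, norm_zero, Real.zero_rpow hq.ne', zero_mul,
          ENNReal.ofReal_zero]
      · right
        refine ⟨U i, Set.mem_univ _, i - m (U i), by omega, ?_⟩
        rw [hv i]
    · refine le_trans (le_of_eq ?_) hY2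
      refine tsum_congr fun ρ => ?_
      rw [zero_add]
  obtain ⟨V, hV, hVnorm⟩ := exists_compMul hp (fun r => κ (lev (U r))) v (1 / 4) (by norm_num) (by
    intro k
    refine le_trans (ENNReal.tsum_le_tsum fun r => ?_) hvE
    split_ifs
    · exact le_rfl
    · exact zero_le)
  -- the flat part
  let σ : ℕ → ℕ := fun r => if h : ∃ k, z k r ≠ 0 then h.choose else 0
  let g : ℕ → 𝕜 := fun r => z (σ r) r
  have hg : ∀ k r, (if σ r = k then g r else 0) = z k r := by
    intro k r
    by_cases h : ∃ k, z k r ≠ 0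
    · have h1 : z (σ r) r ≠ 0 := by
        simp only [σ]
        rw [dif_pos h]
        exact h.choose_spec
      split_ifs with h2
      · simp only [g]
        rw [h2]
      · by_contra h3
        exact h2 (hz1 r _ _ h1 (Ne.symm h3))
    · push Not at h
      split_ifs
      · simp only [g]
        rw [h, h]
      · rw [h]
  have hgk : ∀ k, ∑' r, (if σ r = k then ENNReal.ofReal (‖g r‖ ^ p.toReal) else 0) = 1 := by
    intro k
    rw [← hz2 k]
    refine tsum_congr fun r => ?_
    rw [← hg k r]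
    split_ifs
    · rfl
    · rw [norm_zero, Real.zero_rpow hq.ne', ENNReal.ofReal_zero]
  obtain ⟨Z, hZ, -⟩ := exists_compMul hp σ g 1 zero_le_one (by
    intro k
    rw [hgk, Real.one_rpow, ENNReal.ofReal_one])
  have hZnorm : ∀ a, ‖a‖ ≤ ‖Z a‖ := by
    intro a
    apply norm_le_of_energy hp _ (norm_nonneg _)
    rw [← energy_eq hp (Z a)]
    have h1 : (Z a : ℕ → 𝕜) = fun r => a (σ r) * g r := funext fun r => hZ a r
    rw [h1, energy_comp]
    simp_rw [hgk, mul_one]
    exact le_rfl
  -- the subspace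
  let J : SeqSpace 𝕜 p →L[𝕜] SeqSpace 𝕜 p := Z + V
  have hJ : ∀ a, ‖a‖ ≤ 2 * ‖J a‖ := by
    intro a
    have h1 := hZnorm a
    have h2 := hVnorm a
    have h3 : Z a = J a - V a := by simp [J]
    have h4 : ‖Z a‖ ≤ ‖J a‖ + ‖V a‖ := by
      rw [h3]
      exact norm_sub_le _ _
    have h5 := norm_nonneg a
    linarith
  have hJanti : AntilipschitzWith 2 J := by
    apply AddMonoidHomClass.antilipschitz_of_bound J (K := 2)
    intro a
    exact_mod_cast hJ a
  refine ⟨LinearMap.range (J : SeqSpace 𝕜 p →ₗ[𝕜] SeqSpace 𝕜 p), ?_, ?_, ?_⟩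
  · have h1 := hJanti.isClosed_range J.uniformContinuous
    rw [LinearMap.coe_range]
    exact h1
  · intro hfd
    have hinj : Function.Injective (J : SeqSpace 𝕜 p →ₗ[𝕜] SeqSpace 𝕜 p) := hJanti.injective
    have e := LinearEquiv.ofInjective (J : SeqSpace 𝕜 p →ₗ[𝕜] SeqSpace 𝕜 p) hinj
    exact not_finiteDimensional_seqSpace (𝕜 := 𝕜) (p := p)
      (Module.Finite.equiv e.symm)
  · rintro x ⟨a, rfl⟩ hx
    have ha0 : a ≠ 0 := by
      rintro rfl
      exact hx (map_zero _)
    obtain ⟨k, hk⟩ : ∃ k, a k ≠ 0 := by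
      by_contra h
      push Not at h
      exact ha0 (lp.ext (funext h))
    intro O hO hOne
    obtain ⟨y, hy⟩ := hOne
    obtain ⟨ε, hε, hball⟩ := Metric.isOpen_iff.1 hO y hy
    have hak : 0 < ‖a k‖ := norm_pos_iff.2 hk
    -- tails
    have htail := tail_tendsto (fun ρ => ∑' t, D ρ t) B hB
      (ne_top_of_le_ne_top ENNReal.ofReal_ne_top hY2) hDfin
    have htail2 : Tendsto (fun L => ENNReal.ofReal (‖a‖ ^ p.toReal) *
        ∑' ρ, (∑' t, D ρ t) * ∑' k, B (k + (L + ρ))) atTop (𝓝 0) := by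
      have := ENNReal.Tendsto.const_mul (a := ENNReal.ofReal (‖a‖ ^ p.toReal)) htail
        (Or.inr ENNReal.ofReal_ne_top)
      rwa [mul_zero] at this
    have htail3 : ∀ᶠ L in atTop, ENNReal.ofReal (‖a‖ ^ p.toReal) *
        ∑' ρ, (∑' t, D ρ t) * ∑' k, B (k + (L + ρ)) ≤ ENNReal.ofReal ((ε / 4) ^ p.toReal) :=
      (htail2.eventually_lt_const (ENNReal.ofReal_pos.2 (by positivity))).mono fun n hn => hn.le
    obtain ⟨L₀, hL₀⟩ := eventually_atTop.1 htail3
    obtain ⟨ρ, hρL, hρκ, hρY⟩ := hY3 ((a k)⁻¹ • y) (ε / (4 * ‖a k‖)) (by positivity) k L₀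
    obtain ⟨n₀, hn₀⟩ := flat_tendsto hp hw hT z σ g hg hz3 hz4 Z hZ a (ε / 4) (by positivity)
    refine lowerDensity_pos_mono ?_ (hmdens ρ n₀)
    rintro n ⟨hn0, u, hulev, hun⟩
    apply hball
    rw [Metric.mem_ball, iterate_eq_pow, dist_eq_norm]
    have hnA : n ∈ A := hun ▸ hmA u
    have hZpart := hn₀ n hnA hn0
    -- the remainder
    have hR : ‖(T ^ n) (V a) - a k • Y ρ‖ ≤ ε / 4 := by
      apply norm_le_of_energy hp _ (by positivity)
      refine le_trans ?_ (hL₀ ρ hρL)
      rw [energy_eq_weighted hw]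
      refine le_trans (event_sum_le m hm {u' | u < u'} n ρ ?_ B
        (fun ρ t => ENNReal.ofReal (‖a‖ ^ p.toReal) * D ρ t)
        (fun i => ENNReal.ofReal (‖((T ^ n) (V a) - a k • Y ρ : SeqSpace 𝕜 p) i‖ ^ p.toReal *
          bb w p.toReal i)) ?_) ?_
      · intro u' hu'
        have h1 := hmsep u u' hu'
        omega
      · intro i
        have hcoord : ((T ^ n) (V a) - a k • Y ρ : SeqSpace 𝕜 p) i =
            (T ^ n) (V a) i - a k * Y ρ i := by
          rw [lp.coeFn_sub, Pi.sub_apply, lp.coeFn_smul, Pi.smul_apply, smul_eq_mul]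
        have hTV : (T ^ n) (V a) i =
            a (κ (lev (U (i + n)))) * (beta w (i + n) * v (i + n)) / beta w i := by
          rw [pow_apply hw hT, hV]
          ring
        have hbv : beta w (i + n) * v (i + n) =
            beta w (i + n - m (U (i + n))) * Y (lev (U (i + n))) (i + n - m (U (i + n))) := by
          simp only [v]
          have := beta_ne_zero hw (i + n)
          field_simp
        have hmn : m u ≤ i + n := by omega
        have hUge := hU1 u (i + n) hmn
        have hUle := hU3 u (i + n) hmn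
        rcases eq_or_lt_of_le hUge with h1 | h1
        · left
          have h2 : (T ^ n) (V a) i = a k * Y ρ i := by
            rw [hTV, hbv, ← h1, hulev, hρκ, show i + n - m u = i by omega]
            have := beta_ne_zero hw i
            field_simp
          rw [hcoord, h2, sub_self, norm_zero, Real.zero_rpow hq.ne', zero_mul,
            ENNReal.ofReal_zero]
        · right
          refine ⟨U (i + n), h1, i + n - m (U (i + n)), by omega, ?_⟩
          have h2 := hmsep u (U (i + n)) h1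
          have h3 : Y ρ i = 0 := hY1 ρ i (by omega)
          rw [hcoord, h3, mul_zero, sub_zero, hTV, hbv, ← ENNReal.ofReal_mul (by positivity)]
          apply ENNReal.ofReal_le_ofReal
          rw [norm_div, norm_mul, norm_mul, Real.div_rpow (by positivity) (by positivity),
            Real.mul_rpow (by positivity) (by positivity),
            Real.mul_rpow (by positivity) (by positivity)]
          change ‖a (κ (lev (U (i + n))))‖ ^ p.toReal * (bb w p.toReal (i + n - m (U (i + n))) *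
            _) / bb w p.toReal i * bb w p.toReal i ≤ _
          have h4 := bb_pos hw p.toReal i
          rw [div_mul_cancel₀ _ h4.ne']
          have h5 : ‖a (κ (lev (U (i + n))))‖ ^ p.toReal ≤ ‖a‖ ^ p.toReal :=
            Real.rpow_le_rpow (norm_nonneg _)
              (lp.norm_apply_le_norm (by
                intro h0
                rw [h0] at hq
                simp at hq) a _) hq.le
          have h6 := bb_pos hw p.toReal (i + n - m (U (i + n)))
          rw [mul_comm (bb w p.toReal (i + n - m (U (i + n))))]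
          apply mul_le_mul_of_nonneg_right h5
          positivity
      · rw [← ENNReal.tsum_mul_left]
        refine ENNReal.tsum_le_tsum fun ρ' => ?_
        rw [ENNReal.tsum_mul_left, mul_assoc]
    have happ : ‖a k • Y ρ - y‖ ≤ ε / 4 := by
      have h1 : a k • Y ρ - y = a k • (Y ρ - (a k)⁻¹ • y) := by
        rw [smul_sub, smul_smul, mul_inv_cancel₀ hk, one_smul]
      rw [h1, norm_smul]
      calc ‖a k‖ * ‖Y ρ - (a k)⁻¹ • y‖ ≤ ‖a k‖ * (ε / (4 * ‖a k‖)) := by
            gcongr
        _ = ε / 4 := by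
            field_simp
    have hsplit : (T ^ n) ((J : SeqSpace 𝕜 p →ₗ[𝕜] SeqSpace 𝕜 p) a) - y =
        (T ^ n) (Z a) + ((T ^ n) (V a) - a k • Y ρ) + (a k • Y ρ - y) := by
      have h1 : (J : SeqSpace 𝕜 p →ₗ[𝕜] SeqSpace 𝕜 p) a = Z a + V a := rfl
      rw [h1, map_add]
      abel
    rw [hsplit]
    calc ‖(T ^ n) (Z a) + ((T ^ n) (V a) - a k • Y ρ) + (a k • Y ρ - y)‖
        ≤ ‖(T ^ n) (Z a)‖ + ‖(T ^ n) (V a) - a k • Y ρ‖ + ‖a k • Y ρ - y‖ := norm_add₃_le
      _ ≤ ε / 4 + ε / 4 + ε / 4 := by gcongr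
      _ < ε := by linarith

end Pool.Agent.Work.MP_0403fc_an
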